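import Pool.Agent.H635.SK.Sch

/-!
# Big (uncountable Borel) sets in the Cantor space
-/

namespace Pool.Agent.H635.SK

open Set Function Filter Topology Cardinal
open scoped ENNReal

/-- the Cantor space -/
abbrev C : Type := ℕ → Bool

instance instCMC : TopologicalSpace.IsCompletelyMetrizableSpace (ℕ → Bool) :=
  TopologicalSpace.IsCompletelyMetrizableSpace.pi_countable

/-- uncountable Borel set -/
def Big (P : Set C) : Prop := MeasurableSet P ∧ ¬ P.Countable

/-- uncountable closed set -/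
def CB (K : Set C) : Prop := IsClosed K ∧ ¬ K.Countable

theorem CB.big {K : Set C} (h : CB K) : Big K := ⟨h.1.measurableSet, h.2⟩

theorem mk_C : #C = 𝔠 := by simp

theorem not_countable_C : ¬ Countable C := by
  intro h
  have h1 : #C ≤ ℵ₀ := Cardinal.mk_le_aleph0
  rw [mk_C] at h1
  exact absurd h1 (not_le.2 Cardinal.aleph0_lt_continuum)

theorem CB_univ : CB (univ : Set C) :=
  ⟨isClosed_univ, fun h => not_countable_C (Set.countable_univ_iff.1 h)⟩

theorem not_countable_range {X : Type*} {c : C → X} (hc : Injective c) :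
    ¬ (range c).Countable := by
  intro h
  apply not_countable_C
  have : Countable (range c) := h.to_subtype
  exact (injective_codRestrict (s := range c) (fun a => mem_range_self a)|>.2 hc).countable

theorem CB_range {c : C → C} (hc : Continuous c) (hi : Injective c) : CB (range c) :=
  ⟨(isCompact_range hc).isClosed, not_countable_range hi⟩

/-- Refining the topology. -/
theorem refine_top {Z Y : Type*} [tZ : TopologicalSpace Z] [PolishSpace Z] [MeasurableSpace Z]
    [BorelSpace Z] [tY : TopologicalSpace Y] [SecondCountableTopology Y]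
    [MeasurableSpace Y] [OpensMeasurableSpace Y]
    {S : Set Z} (hS : MeasurableSet S) {g : Z → Y} (hg : Measurable g) :
    ∃ t' : TopologicalSpace Z, t' ≤ tZ ∧ @PolishSpace Z t' ∧ @Continuous Z Y t' tY g ∧
      @IsClosed Z t' S := by
  classical
  have hf : Measurable (fun z => ((g z, decide (z ∈ S)) : Y × Bool)) := by
    apply hg.prodMk
    apply measurable_to_bool
    have : (fun z => decide (z ∈ S)) ⁻¹' {true} = S := by
      ext z; simp
    rw [this]; exact hS
  obtain ⟨t', t't, f_cont, t'_polish⟩ := hf.exists_continuous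
  have hg' : @Continuous Z Y t' _ g :=
    @Continuous.comp Z (Y × Bool) Y t' _ _ _ _ continuous_fst f_cont
  have hd' : @Continuous Z Bool t' _ (fun z => decide (z ∈ S)) :=
    @Continuous.comp Z (Y × Bool) Bool t' _ _ _ _ continuous_snd f_cont
  refine ⟨t', t't, t'_polish, hg', ?_⟩
  have h1 : (fun z => decide (z ∈ S)) ⁻¹' {true} = S := by
    ext z; simp
  have h2 := (@continuous_iff_isClosed Z Bool t' _ _).1 hd' {true} (isClosed_discrete _)
  rw [h1] at h2
  exact h2

/-- Perfect set theorem, general version. -/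
theorem exists_embed {Z Y : Type*} [tZ : TopologicalSpace Z] [PolishSpace Z] [MeasurableSpace Z]
    [BorelSpace Z] [TopologicalSpace Y] [T2Space Y] [SecondCountableTopology Y]
    [MeasurableSpace Y] [OpensMeasurableSpace Y]
    {S : Set Z} (hS : MeasurableSet S) {g : Z → Y} (hg : Measurable g)
    (hunc : ¬ (g '' S).Countable) :
    ∃ c : C → Z, Continuous c ∧ (∀ a, c a ∈ S) ∧ Injective (fun a => g (c a)) := by
  obtain ⟨t', t't, t'_polish, hg', hcl⟩ := refine_top hS hg
  obtain ⟨A, c, h1, h2, h3, h4, h5⟩ := @scheme Z Y t' t'_polish _ _ g hg' S ⟨hcl, hunc⟩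
    (fun _ _ => True) (fun s K _ hK => ⟨K, Subset.rfl, hK, trivial⟩)
  refine ⟨c, ?_, ?_, h5⟩
  · exact @Continuous.comp C Z Z _ t' tZ _ _ (continuous_id_of_le t't) h3
  · intro a
    exact (h1 []).2.1 (h4 a 0)

theorem Big.embed {P : Set C} (h : Big P) :
    ∃ c : C → C, Continuous c ∧ (∀ a, c a ∈ P) ∧ Injective c := by
  obtain ⟨c, h1, h2, h3⟩ := exists_embed h.1 (measurable_id (α := C)) (by simpa using h.2)
  exact ⟨c, h1, h2, h3⟩

theorem Big.exists_CB {P : Set C} (h : Big P) : ∃ K, K ⊆ P ∧ CB K := by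
  obtain ⟨c, h1, h2, h3⟩ := h.embed
  exact ⟨range c, by rintro _ ⟨a, rfl⟩; exact h2 a, CB_range h1 h3⟩

theorem mk_eq_continuum_of_injOn {S : Set C} {c : C → C} (h2 : ∀ a, c a ∈ S) (h3 : Injective c) :
    #S = 𝔠 := by
  apply le_antisymm
  · rw [← mk_C]; exact Cardinal.mk_set_le S
  · rw [← mk_C]
    exact Cardinal.mk_le_of_injective (f := fun a => (⟨c a, h2 a⟩ : S))
      (fun a b hab => h3 (by simpa using hab))

theorem Big.mk {P : Set C} (h : Big P) : #P = 𝔠 := by
  obtain ⟨c, h1, h2, h3⟩ := h.embed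
  exact mk_eq_continuum_of_injOn h2 h3

theorem Big.nonempty {P : Set C} (h : Big P) : P.Nonempty := by
  by_contra hn
  rw [not_nonempty_iff_eq_empty] at hn
  exact h.2 (by rw [hn]; simp)

/-- countable pigeonhole -/
theorem Big.pigeon {ι : Type*} [Countable ι] {P : Set C} (h : Big P) (Q : ι → Set C)
    (hQ : ∀ i, MeasurableSet (Q i)) (hc : P ⊆ ⋃ i, Q i) : ∃ i, Big (P ∩ Q i) := by
  by_contra hn
  push Not at hn
  apply h.2
  have : P ⊆ ⋃ i, (P ∩ Q i) := by
    intro x hx
    obtain ⟨i, hi⟩ := mem_iUnion.1 (hc hx)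
    exact mem_iUnion.2 ⟨i, hx, hi⟩
  refine Set.Countable.mono this (Set.countable_iUnion fun i => ?_)
  by_contra hc'
  exact hn i ⟨h.1.inter (hQ i), hc'⟩

/-- uncountable pigeonhole (sets need to be measurable only one at a time) -/
theorem Big.pigeon_lt {ι : Type} (hι : #ι < 𝔠) {P : Set C} (h : Big P) (Q : ι → Set C)
    (hQ : ∀ i, MeasurableSet (Q i)) (hc : P ⊆ ⋃ i, Q i) : ∃ i, Big (P ∩ Q i) := by
  by_contra hn
  push Not at hn
  have hcount : ∀ i, (P ∩ Q i).Countable := by
    intro i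
    by_contra hc'
    exact hn i ⟨h.1.inter (hQ i), hc'⟩
  have hP : P ⊆ ⋃ i, (P ∩ Q i) := by
    intro x hx
    obtain ⟨i, hi⟩ := mem_iUnion.1 (hc hx)
    exact mem_iUnion.2 ⟨i, hx, hi⟩
  have h1 : #P ≤ #ι * ℵ₀ := by
    refine (Cardinal.mk_le_mk_of_subset hP).trans ?_
    refine (Cardinal.mk_iUnion_le _).trans ?_
    gcongr
    apply ciSup_le'
    intro i
    exact Cardinal.le_aleph0_iff_set_countable.2 (hcount i)
  rw [h.mk] at h1
  exact absurd h1 (not_le.2 (Cardinal.mul_lt_of_lt Cardinal.aleph0_lt_continuum.le hι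
    Cardinal.aleph0_lt_continuum))

/-- interleaving -/
def il (u v : C) : C := fun n => if n % 2 = 0 then u (n / 2) else v (n / 2)

theorem il_even (u v : C) (n : ℕ) : il u v (2 * n) = u n := by
  unfold il
  rw [if_pos (by omega)]
  congr 1
  omega

theorem il_odd (u v : C) (n : ℕ) : il u v (2 * n + 1) = v n := by
  unfold il
  rw [if_neg (by omega)]
  congr 1
  omega

theorem il_inj {u v u' v' : C} (h : il u v = il u' v') : u = u' ∧ v = v' := by
  constructor
  · funext n
    rw [← il_even u v n, ← il_even u' v' n, h]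
  · funext n
    rw [← il_odd u v n, ← il_odd u' v' n, h]

theorem il_continuous (u : C) : Continuous (fun v => il u v) := by
  apply continuous_pi
  intro n
  unfold il
  split_ifs
  · exact continuous_const
  · exact continuous_apply _

/-- L2: avoiding fewer than continuum many points -/
theorem Big.avoid {P : Set C} (h : Big P) {B : Set C} (hB : #B < 𝔠) :
    ∃ K, K ⊆ P ∧ CB K ∧ Disjoint K B := by
  classical
  obtain ⟨c, h1, h2, h3⟩ := h.embed
  -- bad parameters
  have hinj : ∃ u : C, ∀ v, c (il u v) ∉ B := by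
    by_contra hn
    push Not at hn
    choose f hf using hn
    have : Injective (fun u : C => (⟨c (il u (f u)), hf u⟩ : B)) := by
      intro u u' huu'
      have := h3 (by simpa using huu' : c (il u (f u)) = c (il u' (f u')))
      exact (il_inj this).1
    have := Cardinal.mk_le_of_injective this
    rw [mk_C] at this
    exact absurd hB (not_lt.2 this)
  obtain ⟨u, hu⟩ := hinj
  refine ⟨range (fun v => c (il u v)), ?_, ?_, ?_⟩
  · rintro _ ⟨v, rfl⟩
    exact h2 _
  · refine CB_range (h1.comp (il_continuous u)) ?_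
    intro v v' hvv'
    exact (il_inj (h3 hvv')).2
  · rw [Set.disjoint_left]
    rintro _ ⟨v, rfl⟩ hb
    exact hu v hb

/-- L3: constant or injective -/
theorem const_or_inj {K : Set C} (hK : Big K) {g : C → C} (hg : Measurable g) :
    ∃ K', K' ⊆ K ∧ CB K' ∧ ((∃ y, ∀ x ∈ K', g x = y) ∨ InjOn g K') := by
  by_cases h : ∃ y, ¬ (K ∩ g ⁻¹' {y}).Countable
  · obtain ⟨y, hy⟩ := h
    have hb : Big (K ∩ g ⁻¹' {y}) := ⟨hK.1.inter (hg (measurableSet_singleton y)), hy⟩
    obtain ⟨K', h1, h2⟩ := hb.exists_CB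
    exact ⟨K', fun x hx => (h1 hx).1, h2, Or.inl ⟨y, fun x hx => (h1 hx).2⟩⟩
  · push Not at h
    have hunc : ¬ (g '' K).Countable := by
      intro hc
      apply hK.2
      have : K ⊆ ⋃ y ∈ g '' K, (K ∩ g ⁻¹' {y}) := by
        intro x hx
        exact mem_biUnion (x := g x) ⟨x, hx, rfl⟩ ⟨hx, rfl⟩
      exact (hc.biUnion fun y _ => h y).mono this
    obtain ⟨c, h1, h2, h3⟩ := exists_embed hK.1 hg hunc
    have hci : Injective c := fun a b hab => h3 (congrArg g hab)
    refine ⟨range c, ?_, CB_range h1 hci, Or.inr ?_⟩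
    · rintro _ ⟨a, rfl⟩
      exact h2 a
    · rintro _ ⟨a, rfl⟩ _ ⟨b, rfl⟩ hab
      rw [h3 hab]

/-- measurable left inverse -/
theorem exists_leftInv {X Y : Type*} [MeasurableSpace X] [StandardBorelSpace X] [Nonempty X]
    [MeasurableSpace Y] [MeasurableSpace.CountablySeparated Y] {f : X → Y} (hf : Measurable f)
    {S : Set X} (hS : MeasurableSet S) (hi : InjOn f S) :
    ∃ L : Y → X, Measurable L ∧ ∀ x ∈ S, L (f x) = x := by
  have hst : StandardBorelSpace S := hS.standardBorel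
  have hme : MeasurableEmbedding (fun x : S => f x) :=
    Measurable.measurableEmbedding (hf.comp measurable_subtype_coe)
      (fun x y hxy => Subtype.ext (hi x.2 y.2 hxy))
  obtain ⟨L, hL, hL'⟩ := hme.exists_measurable_extend (measurable_subtype_coe (p := (· ∈ S)))
    (fun _ => inferInstance)
  exact ⟨L, hL, fun x hx => congrFun hL' ⟨x, hx⟩⟩

theorem Big.image {P : Set C} (h : Big P) {f : C → C} (hf : Measurable f) (hi : InjOn f P) :
    Big (f '' P) := by
  refine ⟨h.1.image_of_measurable_injOn hf hi, ?_⟩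
  intro hc
  exact h.2 (Set.countable_of_injective_of_countable_image hi hc)

/-- The scheme theorem in the Cantor space. -/
theorem ST (K₀ : Set C) (hK₀ : CB K₀) (𝒟 : List Bool → Set C → Prop)
    (hD : ∀ s K, K ⊆ K₀ → CB K → ∃ K', K' ⊆ K ∧ CB K' ∧ 𝒟 s K') :
    ∃ (A : List Bool → Set C) (c : C → C),
      (∀ s, CB (A s) ∧ A s ⊆ K₀ ∧ 𝒟 s (A s)) ∧
      (∀ i s, A (i :: s) ⊆ A s) ∧
      Continuous c ∧ (∀ a n, c a ∈ A (PiNat.res a n)) ∧ Injective c := by
  have hCU : ∀ K : Set C, CU (id : C → C) K ↔ CB K := by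
    intro K
    unfold CU CB
    rw [image_id]
  obtain ⟨A, c, h1, h2, h3, h4, h5⟩ := scheme (g := (id : C → C)) continuous_id K₀
    ((hCU K₀).2 hK₀) 𝒟 (by
      intro s K hs hK
      obtain ⟨K', a, b, d⟩ := hD s K hs ((hCU K).1 hK)
      exact ⟨K', a, (hCU K').2 b, d⟩)
  exact ⟨A, c, fun s => ⟨(hCU _).1 (h1 s).1, (h1 s).2⟩, h2, h3, h4, h5⟩

/-- Level version: a closed big set covered at each level by finitely many members of the
dense families. -/
theorem ST_level (K₀ : Set C) (hK₀ : CB K₀) (𝒟 : ℕ → Set C → Prop)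
    (hD : ∀ n K, K ⊆ K₀ → CB K → ∃ K', K' ⊆ K ∧ CB K' ∧ 𝒟 n K') :
    ∃ R, R ⊆ K₀ ∧ CB R ∧ ∀ n, ∃ F : Set (Set C), F.Finite ∧ R ⊆ ⋃₀ F ∧ ∀ K ∈ F, 𝒟 n K := by
  obtain ⟨A, c, h1, h2, h3, h4, h5⟩ := ST K₀ hK₀ (fun s K => 𝒟 s.length K)
    (fun s K hs hK => hD _ K hs hK)
  refine ⟨range c, ?_, CB_range h3 h5, ?_⟩
  · rintro _ ⟨a, rfl⟩
    exact (h1 []).2.1 (h4 a 0)
  · intro n
    refine ⟨A '' {s : List Bool | s.length = n}, ?_, ?_, ?_⟩
    · exact (List.finite_length_eq Bool n).image A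
    · rintro _ ⟨a, rfl⟩
      exact mem_sUnion.2 ⟨A (PiNat.res a n), ⟨_, PiNat.res_length _ _, rfl⟩, h4 a n⟩
    · rintro _ ⟨s, hs, rfl⟩
      have := (h1 s).2.2
      have hs' : s.length = n := hs
      rw [hs'] at this
      exact this

end Pool.Agent.H635.SK
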