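import Pool.Agent.H635.SK.Lev

/-!
# Removing conflicts
-/

namespace Pool.Agent.H635.SK

open Set Function Filter Topology Cardinal

theorem countable_via {X Y : Type*} {s : Set X} {g : X → Y} (hg : InjOn g s) {t : Set Y}
    (ht : t.Countable) (h : ∀ x ∈ s, g x ∈ t) : s.Countable :=
  Set.countable_of_injective_of_countable_image hg
    (ht.mono (by rintro _ ⟨x, hx, rfl⟩; exact h x hx))

namespace Sys

variable {Ω : Type} [LinearOrder Ω] [WellFoundedLT Ω] (S : Sys Ω)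

theorem nc_mono {l m : Ω} (hlm : l ≤ m) {A A' : Set ℕ} (h : S.nc m A = S.nc m A') :
    S.nc l A = S.nc l A' := by
  rw [S.nc_eq] at h ⊢
  exact fun ξ hξ => h ξ (hξ.trans hlm)

theorem inj_mono {l m : Ω} (hlm : l ≤ m) {B : C → Set ℕ} {R : Set C}
    (h : InjOn (fun a => S.nc l (B a)) R) : InjOn (fun a => S.nc m (B a)) R := by
  intro a ha a' ha' haa'
  exact h ha ha' (S.nc_mono hlm haa')

variable {D : Type} (μ l : D → Ω) (R : D → Set C) (B : D → C → Set ℕ)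

theorem AD1 (hlμ : ∀ δ, l δ ≤ μ δ)
    (hinj : ∀ δ, InjOn (fun a => S.nc (l δ) (B δ a)) (R δ))
    (hcount : ∀ δ, ∀ l' < l δ, ((fun a => S.nc l' (B δ a)) '' R δ).Countable)
    (h4 : ∀ δ δ', δ ≠ δ' → μ δ = μ δ' → l δ = l δ' →
        {a ∈ R δ | ∃ a' ∈ R δ', S.nc (μ δ) (B δ a) = S.nc (μ δ) (B δ' a')}.Countable)
    (δ δ' : D) (hne : δ ≠ δ') (hμ : μ δ = μ δ') :
    {a ∈ R δ | ∃ a' ∈ R δ', S.nc (μ δ) (B δ a) = S.nc (μ δ) (B δ' a')}.Countable := by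
  rcases lt_trichotomy (l δ) (l δ') with h | h | h
  · refine countable_via (g := fun a => S.nc (l δ) (B δ a)) ?_ (hcount δ' (l δ) h) ?_
    · exact (hinj δ).mono (fun a ha => ha.1)
    · rintro a ⟨ha, a', ha', haa'⟩
      exact ⟨a', ha', (S.nc_mono (hlμ δ) haa').symm⟩
  · exact h4 δ δ' hne hμ h
  · have hW : {a' ∈ R δ' | ∃ a ∈ R δ, S.nc (μ δ) (B δ a) = S.nc (μ δ) (B δ' a')}.Countable := by
      refine countable_via (g := fun a => S.nc (l δ') (B δ' a)) ?_ (hcount δ (l δ') h) ?_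
      · exact (hinj δ').mono (fun a ha => ha.1)
      · rintro a' ⟨ha', a, ha, haa'⟩
        exact ⟨a, ha, S.nc_mono (by rw [hμ]; exact hlμ δ') haa'⟩
    refine countable_via (g := fun a => S.nc (μ δ) (B δ a)) ?_
      (hW.image (fun a' => S.nc (μ δ) (B δ' a'))) ?_
    · exact (S.inj_mono (hlμ δ) (hinj δ)).mono (fun a ha => ha.1)
    · rintro a ⟨ha, a', ha', haa'⟩
      exact ⟨a', ⟨ha', a, ha, haa'⟩, haa'.symm⟩

theorem passBeta (hlμ : ∀ δ, l δ ≤ μ δ) (hR : ∀ δ, Big (R δ)) (hB : ∀ δ, MS (B δ))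
    (hinj : ∀ δ, InjOn (fun a => S.nc (l δ) (B δ a)) (R δ))
    (hAD : ∀ δ δ', δ ≠ δ' → μ δ = μ δ' →
        {a ∈ R δ | ∃ a' ∈ R δ', S.nc (μ δ) (B δ a) = S.nc (μ δ) (B δ' a')}.Countable) (δ : D) :
    ∃ Rf, Rf ⊆ R δ ∧ CB Rf ∧ ∀ m, l δ ≤ m → m < μ δ →
      {δ' | μ δ' = m ∧
        ¬ {a ∈ Rf | ∃ a' ∈ R δ', S.nc m (B δ a) = S.nc m (B δ' a')}.Countable}.Countable := by
  obtain ⟨K₀, hK₀sub, hK₀⟩ := (hR δ).exists_CB
  obtain ⟨Rf, h1, h2, h3⟩ := ST_level K₀ hK₀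
    (fun n K => l δ ≤ S.ζ (μ δ) n → ∃ δ₀ : D, ∀ δ', δ' ≠ δ₀ → μ δ' = S.ζ (μ δ) n →
      {a ∈ K | ∃ a' ∈ R δ', S.nc (S.ζ (μ δ) n) (B δ a) =
        S.nc (S.ζ (μ δ) n) (B δ' a')}.Countable) (by
      intro n K hs hK
      set m := S.ζ (μ δ) n with hm
      by_cases hex : l δ ≤ m ∧ ∃ δ₀, μ δ₀ = m ∧
        ¬ {a ∈ K | ∃ a' ∈ R δ₀, S.nc m (B δ a) = S.nc m (B δ₀ a')}.Countable
      · obtain ⟨hlm, δ₀, hμ₀, hunc⟩ := hex
        have hlm₀ : l δ₀ ≤ m := by rw [← hμ₀]; exact hlμ δ₀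
        have him : MeasurableSet ((fun a => S.nc m (B δ₀ a)) '' R δ₀) :=
          (hR δ₀).1.image_of_measurable_injOn (S.meas_nc (hB δ₀) m)
            (S.inj_mono hlm₀ (hinj δ₀))
        have hQ : Big (K ∩ (fun a => S.nc m (B δ a)) ⁻¹' ((fun a => S.nc m (B δ₀ a)) '' R δ₀)) := by
          refine ⟨hK.big.1.inter (S.meas_nc (hB δ) m him), ?_⟩
          intro hc
          apply hunc
          refine hc.mono ?_
          rintro a ⟨ha, a', ha', haa'⟩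
          exact ⟨ha, a', ha', haa'.symm⟩
        obtain ⟨K', hK', hK'c⟩ := hQ.exists_CB
        refine ⟨K', fun a ha => (hK' ha).1, hK'c, fun _ => ⟨δ₀, ?_⟩⟩
        intro δ' hne hμ'
        have hc := hAD δ₀ δ' hne.symm (by rw [hμ₀, hμ'])
        rw [hμ₀] at hc
        refine countable_via (g := fun a => S.nc m (B δ a)) ?_
          (hc.image (fun a => S.nc m (B δ₀ a))) ?_
        · refine (S.inj_mono hlm (hinj δ)).mono ?_
          rintro a ⟨ha, -⟩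
          exact hK₀sub (hs (hK' ha).1)
        · rintro a ⟨ha, a', ha', haa'⟩
          obtain ⟨a₀, ha₀, haa₀⟩ := (hK' ha).2
          have haa₀' : S.nc m (B δ₀ a₀) = S.nc m (B δ a) := haa₀
          exact ⟨a₀, ⟨ha₀, a', ha', by rw [haa₀', haa']⟩, haa₀⟩
      · refine ⟨K, Subset.rfl, hK, fun hlm => ⟨δ, ?_⟩⟩
        intro δ' _ hμ'
        by_contra hc
        exact hex ⟨hlm, δ', hμ', hc⟩)
  refine ⟨Rf, h1.trans hK₀sub, h2, ?_⟩
  intro m hlm hmμ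
  have : m ∈ range (S.ζ (μ δ)) := by rw [S.hζ]; exact hmμ.le
  obtain ⟨n, rfl⟩ := this
  obtain ⟨G, hG, hRG, hGD⟩ := h3 n
  choose δ₀ hδ₀ using fun K (hK : K ∈ G) => hGD K hK hlm
  have hsub : {δ' | μ δ' = S.ζ (μ δ) n ∧
        ¬ {a ∈ Rf | ∃ a' ∈ R δ', S.nc (S.ζ (μ δ) n) (B δ a) =
          S.nc (S.ζ (μ δ) n) (B δ' a')}.Countable} ⊆ range (fun K : G => δ₀ K.1 K.2) := by
    rintro δ' ⟨hμ', hunc⟩
    by_contra hn
    apply hunc
    have hcov : {a ∈ Rf | ∃ a' ∈ R δ', S.nc (S.ζ (μ δ) n) (B δ a) =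
          S.nc (S.ζ (μ δ) n) (B δ' a')} ⊆ ⋃ K ∈ G, {a ∈ K | ∃ a' ∈ R δ',
            S.nc (S.ζ (μ δ) n) (B δ a) = S.nc (S.ζ (μ δ) n) (B δ' a')} := by
      rintro a ⟨ha, h⟩
      obtain ⟨K, hK, haK⟩ := mem_sUnion.1 (hRG ha)
      exact mem_biUnion hK ⟨haK, h⟩
    refine Set.Countable.mono hcov (hG.countable.biUnion fun K hK => ?_)
    apply hδ₀ K hK δ' _ hμ'
    rintro rfl
    exact hn ⟨⟨K, hK⟩, rfl⟩
  have : Countable G := hG.countable.to_subtype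
  exact (countable_range _).mono hsub

/-- Stage 3: conflicts only along a countable well-founded relation. -/
theorem stage3 (hD : #D ≤ 𝔠) (hlμ : ∀ δ, l δ ≤ μ δ) (hR : ∀ δ, Big (R δ)) (hB : ∀ δ, MS (B δ))
    (hinj : ∀ δ, InjOn (fun a => S.nc (l δ) (B δ a)) (R δ))
    (hcount : ∀ δ, ∀ l' < l δ, ((fun a => S.nc l' (B δ a)) '' R δ).Countable)
    (h4 : ∀ δ δ', δ ≠ δ' → μ δ = μ δ' → l δ = l δ' →
        {a ∈ R δ | ∃ a' ∈ R δ', S.nc (μ δ) (B δ a) = S.nc (μ δ) (B δ' a')}.Countable) :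
    ∃ (Rs : D → Set C) (Δ : D → Set D), (∀ δ, Rs δ ⊆ R δ ∧ CB (Rs δ)) ∧
      (∀ δ, (Δ δ).Countable) ∧ (∀ δ, ∀ δ' ∈ Δ δ, μ δ' < μ δ) ∧
      ∀ δ δ', δ ≠ δ' → δ' ∈ Δ δ ∨ δ ∈ Δ δ' ∨ ∀ a ∈ Rs δ, ∀ a' ∈ Rs δ', ∃ ξ, ξ ≤ μ δ ∧ ξ ≤ μ δ' ∧
        nd (S.e ξ) (B δ a) ≠ nd (S.e ξ) (B δ' a') := by
  classical
  have hAD := S.AD1 μ l R B hlμ hinj hcount h4
  choose Rf hRfsub hRfCB hRf using S.passBeta μ l R B hlμ hR hB hinj hAD
  obtain ⟨lt, hwo, hsmall⟩ := exists_small_wo D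
  let Cs : D → D → Set C := fun δ δ' =>
    {a ∈ Rf δ | ∃ a' ∈ Rf δ', S.nc (min (μ δ) (μ δ')) (B δ a) = S.nc (min (μ δ) (μ δ')) (B δ' a')}
  let bad : D → Set C := fun δ => ⋃ x : {x // lt x δ}, if (Cs δ x.1).Countable then Cs δ x.1 else ∅
  have hbad : ∀ δ, #(bad δ) < 𝔠 := by
    intro δ
    apply mk_biUnion_countable_lt Cardinal.aleph0_lt_continuum ((hsmall δ).trans_le hD)
    intro x
    split_ifs with h
    · exact h
    · exact countable_empty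
  have hP2 : ∀ δ, ∃ K, K ⊆ Rf δ ∧ CB K ∧ Disjoint K (bad δ) := fun δ =>
    (hRfCB δ).big.avoid (hbad δ)
  choose Rs hRssub hRsCB hRsdisj using hP2
  -- no conflict
  have hQ' : ∀ δ δ', lt δ' δ → (Cs δ δ').Countable → ∀ a ∈ Rs δ, ∀ a' ∈ Rs δ',
      S.nc (min (μ δ) (μ δ')) (B δ a) ≠ S.nc (min (μ δ) (μ δ')) (B δ' a') := by
    intro δ δ' hlt hc a ha a' ha' haa'
    have hmem : a ∈ bad δ := by
      refine mem_iUnion.2 ⟨⟨δ', hlt⟩, ?_⟩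
      rw [if_pos hc]
      exact ⟨hRssub δ ha, a', hRssub δ' ha', haa'⟩
    exact Set.disjoint_left.1 (hRsdisj δ) ha hmem
  have hQ : ∀ δ δ', δ ≠ δ' → (Cs δ δ').Countable → (Cs δ' δ).Countable → ∀ a ∈ Rs δ, ∀ a' ∈ Rs δ',
      S.nc (min (μ δ) (μ δ')) (B δ a) ≠ S.nc (min (μ δ) (μ δ')) (B δ' a') := by
    intro δ δ' hne h1 h2 a ha a' ha'
    rcases trichotomous_of lt δ δ' with h | h | h
    · have := hQ' δ' δ h h2 a' ha' a ha
      rw [min_comm] at this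
      exact this.symm
    · exact absurd h hne
    · exact hQ' δ δ' h h1 a ha a' ha'
  have hCsame : ∀ δ δ', δ ≠ δ' → μ δ = μ δ' → (Cs δ δ').Countable := by
    intro δ δ' hne hμ
    refine (hAD δ δ' hne hμ).mono ?_
    rintro a ⟨ha, a', ha', haa'⟩
    rw [← hμ, min_self] at haa'
    exact ⟨hRfsub δ ha, a', hRfsub δ' ha', haa'⟩
  have hC1 : ∀ δ δ', δ ≠ δ' → μ δ = μ δ' → ∀ a ∈ Rs δ, ∀ a' ∈ Rs δ',
      S.nc (μ δ) (B δ a) ≠ S.nc (μ δ) (B δ' a') := by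
    intro δ δ' hne hμ a ha a' ha'
    have := hQ δ δ' hne (hCsame δ δ' hne hμ) (hCsame δ' δ hne.symm hμ.symm) a ha a' ha'
    rwa [← hμ, min_self] at this
  let Δ : D → Set D := fun δ => {δ' | μ δ' < μ δ ∧ ∃ a ∈ Rs δ, ∃ a' ∈ Rs δ',
    S.nc (μ δ') (B δ a) = S.nc (μ δ') (B δ' a')}
  have hΔ : ∀ δ, (Δ δ).Countable := by
    intro δ
    have hsub : Δ δ ⊆ ⋃ m ∈ Iio (μ δ), {δ' ∈ Δ δ | μ δ' = m} := by
      intro δ' hδ'
      exact mem_biUnion (x := μ δ') hδ'.1 ⟨hδ', rfl⟩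
    refine Set.Countable.mono hsub ((S.countable_Iio (μ δ)).biUnion fun m hm => ?_)
    by_cases hlm : l δ ≤ m
    · refine (hRf δ m hlm hm).mono ?_
      rintro δ' ⟨hδ', rfl⟩
      refine ⟨rfl, fun hc => ?_⟩
      have hmin : min (μ δ) (μ δ') = μ δ' := min_eq_right hδ'.1.le
      have hmin' : min (μ δ') (μ δ) = μ δ' := min_eq_left hδ'.1.le
      have hne : δ ≠ δ' := by
        rintro rfl
        exact lt_irrefl _ hδ'.1
      have hc1 : (Cs δ δ').Countable := by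
        refine hc.mono ?_
        rintro a ⟨ha, a', ha', haa'⟩
        rw [hmin] at haa'
        exact ⟨ha, a', hRfsub δ' ha', haa'⟩
      have hc2 : (Cs δ' δ).Countable := by
        refine countable_via (g := fun a => S.nc (μ δ') (B δ' a)) ?_
          (hc1.image (fun a => S.nc (μ δ') (B δ a))) ?_
        · refine (S.inj_mono (hlμ δ') (hinj δ')).mono ?_
          rintro a ⟨ha, -⟩
          exact hRfsub δ' ha
        · rintro a' ⟨ha', a, ha, haa'⟩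
          rw [hmin'] at haa'
          refine ⟨a, ⟨ha, a', ha', ?_⟩, haa'.symm⟩
          rw [hmin]
          exact haa'.symm
      obtain ⟨a, ha, a', ha', haa'⟩ := hδ'.2
      have := hQ δ δ' hne hc1 hc2 a ha a' ha'
      rw [hmin] at this
      exact this haa'
    · push Not at hlm
      have hch : ∀ δ' ∈ {δ' ∈ Δ δ | μ δ' = m}, ∃ a ∈ Rs δ, ∃ a' ∈ Rs δ',
          S.nc m (B δ a) = S.nc m (B δ' a') := by
        rintro δ' ⟨hδ', rfl⟩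
        exact hδ'.2
      choose! f hf using hch
      refine countable_via (g := fun δ' => S.nc m (B δ (f δ'))) ?_ (hcount δ m hlm) ?_
      · intro δ₁ h₁ δ₂ h₂ h12
        by_contra hne
        obtain ⟨ha1, a1, ha1', e1⟩ := hf δ₁ h₁
        obtain ⟨ha2, a2, ha2', e2⟩ := hf δ₂ h₂
        have h12' : S.nc m (B δ (f δ₁)) = S.nc m (B δ (f δ₂)) := h12
        have hμ12 : μ δ₁ = μ δ₂ := by rw [h₁.2, h₂.2]
        apply hC1 δ₁ δ₂ hne hμ12 a1 ha1' a2 ha2'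
        rw [h₁.2, ← e1, ← e2, h12']
      · intro δ' h
        exact ⟨f δ', hRfsub δ (hRssub δ (hf δ' h).1), rfl⟩
  refine ⟨Rs, Δ, fun δ => ⟨(hRssub δ).trans (hRfsub δ), hRsCB δ⟩, hΔ, fun δ δ' h => h.1, ?_⟩
  have hfin : ∀ δ δ', μ δ' < μ δ → δ' ∈ Δ δ ∨ ∀ a ∈ Rs δ, ∀ a' ∈ Rs δ', ∃ ξ, ξ ≤ μ δ ∧ ξ ≤ μ δ' ∧
        nd (S.e ξ) (B δ a) ≠ nd (S.e ξ) (B δ' a') := by
    intro δ δ' hμ
    by_cases h : δ' ∈ Δ δ
    · exact Or.inl h
    · right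
      intro a ha a' ha'
      by_contra hn
      push Not at hn
      apply h
      refine ⟨hμ, a, ha, a', ha', ?_⟩
      rw [S.nc_eq]
      exact fun ξ hξ => hn ξ (hξ.trans hμ.le) hξ
  intro δ δ' hne
  rcases lt_trichotomy (μ δ) (μ δ') with h | h | h
  · rcases hfin δ' δ h with h' | h'
    · exact Or.inr (Or.inl h')
    · right; right
      intro a ha a' ha'
      obtain ⟨ξ, h1, h2, h3⟩ := h' a' ha' a ha
      exact ⟨ξ, h2, h1, h3.symm⟩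
  · right; right
    intro a ha a' ha'
    by_contra hn
    push Not at hn
    apply hC1 δ δ' hne h a ha a' ha'
    rw [S.nc_eq]
    exact fun ξ hξ => hn ξ hξ (by rw [← h]; exact hξ)
  · rcases hfin δ δ' h with h' | h'
    · exact Or.inl h'
    · exact Or.inr (Or.inr h')

end Sys

end Pool.Agent.H635.SK
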