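import Mathlib

/-!
# Splitting number, MAD families and Sacks indestructibility
-/

namespace Pool.Agent.H635.SK

open Set Cardinal

/-- `𝒮` is a splitting family: every infinite `X ⊆ ω` is split by some member of `𝒮`. -/
def IsSplittingFamily (𝒮 : Set (Set ℕ)) : Prop :=
  ∀ X : Set ℕ, X.Infinite → ∃ S ∈ 𝒮, (X ∩ S).Infinite ∧ (X \ S).Infinite

/-- the splitting number `𝔰` -/
noncomputable def splittingNumber : Cardinal.{0} :=
  sInf {κ | ∃ 𝒮 : Set (Set ℕ), IsSplittingFamily 𝒮 ∧ #𝒮 = κ}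

/-- `𝒜` is a maximal almost disjoint family: it is infinite, consists of infinite subsets of `ω`
that are pairwise almost disjoint, and every infinite `X ⊆ ω` has infinite intersection with some
member. -/
def IsMAD (𝒜 : Set (Set ℕ)) : Prop :=
  𝒜.Infinite ∧ (∀ A ∈ 𝒜, A.Infinite) ∧ (∀ A ∈ 𝒜, ∀ B ∈ 𝒜, A ≠ B → (A ∩ B).Finite) ∧
    ∀ X : Set ℕ, X.Infinite → ∃ A ∈ 𝒜, (X ∩ A).Infinite

/-- Perfect subtrees of the binary tree `2^{<ω}` (finite binary sequences are lists, ordered by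
the initial segment relation `<+:`). -/
structure PerfectTree where
  /-- the nodes -/
  T : Set (List Bool)
  nil_mem : [] ∈ T
  closed : ∀ s t, s <+: t → t ∈ T → s ∈ T
  splits : ∀ s ∈ T, ∃ t ∈ T, s <+: t ∧ t ++ [false] ∈ T ∧ t ++ [true] ∈ T

/-- Sacks forcing: perfect trees ordered by inclusion. -/
instance : LE PerfectTree := ⟨fun p q => p.T ⊆ q.T⟩

/-- A (nice) name for a subset of `ω` is a function `τ : ℕ → Set P`; in a generic extension `V[G]`
it denotes the set of those `n` for which `G` meets `τ n`. The relation `p ⊩ n ∈ τ`. -/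
def Forces {P : Type} [LE P] (p : P) (τ : ℕ → Set P) (n : ℕ) : Prop :=
  ∀ q ≤ p, ∃ r ≤ q, ∃ s ∈ τ n, r ≤ s

/-- the relation `p ⊩ n ∉ τ` -/
def ForcesNot {P : Type} [LE P] (p : P) (τ : ℕ → Set P) (n : ℕ) : Prop :=
  ∀ q ≤ p, ¬ Forces q τ n

/-- the relation `p ⊩ (τ is infinite)` -/
def ForcesInfinite {P : Type} [LE P] (p : P) (τ : ℕ → Set P) : Prop :=
  ∀ N, ∀ q ≤ p, ∃ r ≤ q, ∃ m, N ≤ m ∧ Forces r τ m

/-- the relation `p ⊩ (τ ∩ A is finite)` for a ground model set `A` -/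
def ForcesFiniteInter {P : Type} [LE P] (p : P) (τ : ℕ → Set P) (A : Set ℕ) : Prop :=
  ∀ q ≤ p, ∃ r ≤ q, ∃ N, ∀ m, N ≤ m → m ∈ A → ForcesNot r τ m

/-- `𝒜` is a Sacks indestructible MAD family: it is a MAD family and no condition of Sacks forcing
forces some name to be an infinite subset of `ω` almost disjoint from every member of `𝒜`. -/
def SacksIndestructible (𝒜 : Set (Set ℕ)) : Prop :=
  IsMAD 𝒜 ∧ ¬ ∃ (p : PerfectTree) (τ : ℕ → Set PerfectTree), ForcesInfinite p τ ∧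
    ∀ A ∈ 𝒜, ForcesFiniteInter p τ A

end Pool.Agent.H635.SK
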