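import Pool.Agent.H635.SK.Thn

/-!
# The selection lemma (E')
-/

namespace Pool.Agent.H635.SK

open Set Function Filter Topology Cardinal

theorem mk_Iio_lt_aux {c : Cardinal.{0}} (i : c.ord.ToType) : #(Iio i) < c := by
  have h := Cardinal.mk_Iio_lt (α := c.ord.ToType) i (by
    rw [Cardinal.mk_ord_toType, Ordinal.type_toType])
  rwa [Cardinal.mk_ord_toType] at h

/-- a well-order with small initial segments -/
theorem exists_small_wo (D : Type) : ∃ lt : D → D → Prop, IsWellOrder D lt ∧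
    ∀ δ, #{x // lt x δ} < #D := by
  have he : #D = #(#D).ord.ToType := by rw [Cardinal.mk_ord_toType]
  obtain ⟨e⟩ := Cardinal.eq.1 he
  refine ⟨fun x y => e x < e y, ?_, ?_⟩
  · exact (RelIso.preimage e ((· < ·) : (#D).ord.ToType → (#D).ord.ToType → Prop)).toRelEmbedding.isWellOrder
  · intro δ
    have h1 := mk_Iio_lt_aux (e δ)
    refine lt_of_le_of_lt ?_ h1
    exact Cardinal.mk_le_of_injective (f := fun x => (⟨e x.1, x.2⟩ : Iio (e δ)))
      (fun x y hxy => Subtype.ext (e.injective (congrArg Subtype.val hxy)))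

/-- injective choice from continuum sized sets -/
theorem inj_select {D X : Type} (hD : #D ≤ 𝔠) (O : D → Set X) (hO : ∀ δ, 𝔠 ≤ #(O δ)) :
    ∃ f : D → X, Injective f ∧ ∀ δ, f δ ∈ O δ := by
  classical
  obtain ⟨lt, hwo, hsmall⟩ := exists_small_wo D
  have hex : ∀ δ (ih : ∀ δ', lt δ' δ → X), ∃ x ∈ O δ, ∀ δ' (h : lt δ' δ), ih δ' h ≠ x := by
    intro δ ih
    by_contra hn
    push Not at hn
    have h1 : #(O δ) ≤ #{x // lt x δ} := by
      choose g hg hg' using hn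
      refine Cardinal.mk_le_of_injective (f := fun x : O δ => (⟨g x.1 x.2, hg x.1 x.2⟩ : {x // lt x δ})) ?_
      intro x y hxy
      have h2 : g x.1 x.2 = g y.1 y.2 := congrArg Subtype.val hxy
      apply Subtype.ext
      rw [← hg' x.1 x.2, ← hg' y.1 y.2]
      congr 1
    exact absurd ((hO δ).trans h1) (not_le.2 ((hsmall δ).trans_le hD))
  let F : ∀ δ, (∀ δ', lt δ' δ → X) → X := fun δ ih => (hex δ ih).choose
  have hF : ∀ δ ih, F δ ih ∈ O δ ∧ ∀ δ' (h : lt δ' δ), ih δ' h ≠ F δ ih := fun δ ih =>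
    ⟨(hex δ ih).choose_spec.1, (hex δ ih).choose_spec.2⟩
  let f : D → X := hwo.wf.fix F
  have hf : ∀ δ, f δ = F δ (fun δ' _ => f δ') := fun δ => hwo.wf.fix_eq F δ
  refine ⟨f, ?_, ?_⟩
  · have key : ∀ δ δ', lt δ' δ → f δ' ≠ f δ := by
      intro δ δ' h
      rw [hf δ]
      exact (hF δ (fun δ' _ => f δ')).2 δ' h
    intro δ δ' h
    rcases trichotomous_of lt δ δ' with h' | h' | h'
    · exact absurd h (key δ' δ h')
    · exact h'
    · exact absurd h.symm (key δ δ' h')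
  · intro δ
    rw [hf δ]
    exact (hF δ _).1

theorem mk_biUnion_countable_lt {ι : Type} {κ : Cardinal.{0}} (hκ : ℵ₀ < κ) (hι : #ι < κ)
    {X : Type} (S : ι → Set X) (hS : ∀ i, (S i).Countable) : #(⋃ i, S i) < κ := by
  refine lt_of_le_of_lt (Cardinal.mk_iUnion_le _) ?_
  refine lt_of_le_of_lt (b := #ι * ℵ₀) ?_ (Cardinal.mul_lt_of_lt hκ.le hι hκ)
  gcongr
  apply ciSup_le'
  intro i
  exact Cardinal.le_aleph0_iff_set_countable.2 (hS i)

/-- The selection lemma. -/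
theorem elem {D : Type} (hD : #D ≤ 𝔠) (R : D → Set C) (hR : ∀ δ, Big (R δ))
    (η : D → C → C) (hη : ∀ δ, Measurable (η δ)) (hinj : ∀ δ, InjOn (η δ) (R δ))
    (H : D → C → C → C) (hH : ∀ δ, Measurable (fun p : C × C => H δ p.1 p.2))
    (hHinj : ∀ δ, ∀ a ∈ R δ, Injective (H δ a)) :
    ∃ (R' : D → Set C) (v : D → C), (∀ δ, R' δ ⊆ R δ ∧ Big (R' δ)) ∧
      ∀ δ δ', δ ≠ δ' →
        {a ∈ R' δ | ∃ a' ∈ R' δ', η δ a = η δ' a' ∧ H δ a (v δ) = H δ' a' (v δ')}.Countable := by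
  classical
  obtain ⟨κ, hκ0, hκc, ⟨π, hπ, hfail⟩, hmin⟩ := exists_kappa
  -- Step A, B
  let O : D → Set (κ.ord.ToType × C) := fun δ => {p | p.2 ∈ T (fun a => π p.1 (η δ a)) (R δ)}
  have hO : ∀ δ, 𝔠 ≤ #(O δ) := by
    intro δ
    obtain ⟨i, hi⟩ := hfail _ ((hR δ).image (hη δ) (hinj δ))
    have h1 : ¬ (T (fun a => π i (η δ a)) (R δ)).Countable := by
      intro hc
      apply hi
      refine hc.mono ?_
      intro y hy hc'
      apply hy
      refine (hc'.image (η δ)).mono ?_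
      rintro _ ⟨⟨a, ha, rfl⟩, hay⟩
      exact ⟨a, ⟨ha, hay⟩, rfl⟩
    refine (mk_T ((hπ i).comp (hη δ)) (hR δ).1 h1).trans ?_
    exact Cardinal.mk_le_of_injective
      (f := fun y : T (fun a => π i (η δ a)) (R δ) => (⟨(i, y.1), y.2⟩ : O δ))
      (fun x y hxy => Subtype.ext (congrArg (fun z : O δ => z.1.2) hxy))
  obtain ⟨f, hfinj, hfO⟩ := inj_select hD O hO
  -- Step C
  have hC : ∀ δ, ∃ R1, R1 ⊆ R δ ∩ (fun a => π (f δ).1 (η δ a)) ⁻¹' {(f δ).2} ∧ Big R1 ∧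
      ∀ j, j < (f δ).1 → (T (fun a => π j (η δ a)) R1).Countable := by
    intro δ
    have hb : Big (R δ ∩ (fun a => π (f δ).1 (η δ a)) ⁻¹' {(f δ).2}) :=
      ⟨(hR δ).1.inter (((hπ _).comp (hη δ)) (measurableSet_singleton _)), hfO δ⟩
    obtain ⟨R1, h1, h2, h3⟩ := thin_below (ι := Iio (f δ).1)
      (hmin _ (mk_Iio_lt_aux _)) (fun j a => π j.1 (η δ a))
      (fun j => (hπ _).comp (hη δ)) hb
    exact ⟨R1, h1, h2, fun j hj => h3 ⟨j, hj⟩⟩
  choose R1 hR1sub hR1big hR1T using hC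
  -- left inverses
  have hLη : ∀ δ, ∃ L : C → C, Measurable L ∧ ∀ x ∈ R δ, L (η δ x) = x := fun δ =>
    exists_leftInv (hη δ) (hR δ).1 (hinj δ)
  choose Lη hLηm hLη using hLη
  have hLH : ∀ δ, ∃ L : C × C → C × C, Measurable L ∧
      ∀ a ∈ R δ, ∀ z, L (a, H δ a z) = (a, z) := by
    intro δ
    have hm : Measurable (fun p : C × C => ((p.1, H δ p.1 p.2) : C × C)) :=
      measurable_fst.prodMk (hH δ)
    have hi : InjOn (fun p : C × C => ((p.1, H δ p.1 p.2) : C × C)) (R δ ×ˢ Set.univ) := by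
      rintro ⟨a, z⟩ ⟨ha, -⟩ ⟨a', z'⟩ ⟨ha', -⟩ h
      simp only [Prod.mk.injEq] at h
      obtain ⟨rfl, h2⟩ := h
      rw [hHinj δ a ha h2]
    obtain ⟨L, hL, hL'⟩ := exists_leftInv hm ((hR δ).1.prod MeasurableSet.univ) hi
    exact ⟨L, hL, fun a ha z => hL' (a, z) ⟨ha, mem_univ _⟩⟩
  choose LH hLHm hLH using hLH
  let Z : D → D → C → C → C := fun δ δ' v' a => (LH δ (a, H δ' (Lη δ' (η δ a)) v')).2
  have hZm : ∀ δ δ' v', Measurable (Z δ δ' v') := by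
    intro δ δ' v'
    refine measurable_snd.comp ((hLHm δ).comp (measurable_id.prodMk ?_))
    exact (hH δ').comp (((hLηm δ').comp (hη δ)).prodMk measurable_const)
  have hZ : ∀ δ δ' v' a a' z, a ∈ R δ → a' ∈ R δ' → η δ a = η δ' a' →
      H δ a z = H δ' a' v' → Z δ δ' v' a = z := by
    intro δ δ' v' a a' z ha ha' h1 h2
    change (LH δ (a, H δ' (Lη δ' (η δ a)) v')).2 = z
    rw [h1, hLη δ' a' ha', ← h2, hLH δ a ha]
  -- the dependence sets
  let Dp : D → Set D := fun δ => {δ' | (f δ').1 < (f δ).1 ∧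
    ¬ {a ∈ R1 δ | ∃ a' ∈ R1 δ', η δ a = η δ' a'}.Countable}
  have hDp : ∀ δ, #(Dp δ) < κ := by
    intro δ
    let U : Iio (f δ).1 → Set (κ.ord.ToType × C) := fun j =>
      (fun y => (j.1, y)) '' (T (fun a => π j.1 (η δ a)) (R1 δ))
    have hU : #(⋃ j, U j) < κ := by
      apply mk_biUnion_countable_lt hκ0 (mk_Iio_lt_aux _)
      intro j
      exact (hR1T δ j.1 j.2).image _
    refine lt_of_le_of_lt ?_ hU
    have hmem : ∀ δ' ∈ Dp δ, f δ' ∈ ⋃ j, U j := by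
      intro δ' hδ'
      refine mem_iUnion.2 ⟨⟨(f δ').1, hδ'.1⟩, (f δ').2, ?_, rfl⟩
      intro hc
      apply hδ'.2
      refine hc.mono ?_
      rintro a ⟨ha, a', ha', haa'⟩
      refine ⟨ha, ?_⟩
      change π (f δ').1 (η δ a) = (f δ').2
      rw [haa']
      exact (hR1sub δ' ha').2
    exact Cardinal.mk_le_of_injective (f := fun x : Dp δ => (⟨f x.1, hmem x.1 x.2⟩ : ↥(⋃ j, U j)))
      (fun x y hxy => Subtype.ext (hfinj (congrArg Subtype.val hxy)))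
  -- Step D
  have hex : ∀ δ (ih : ∀ δ', (f δ').1 < (f δ).1 → Set C × C),
      ∃ p : Set C × C, p.1 ⊆ R1 δ ∧ Big p.1 ∧
        ∀ δ' (h : (f δ').1 < (f δ).1), δ' ∈ Dp δ → p.2 ∉ T (Z δ δ' (ih δ' h).2) p.1 := by
    intro δ ih
    obtain ⟨R2, h1, h2, h3⟩ := thin_below (hmin _ (hDp δ))
      (fun x : Dp δ => Z δ x.1 (ih x.1 x.2.1).2) (fun x => hZm _ _ _) (hR1big δ)
    have hlt : #(⋃ x : Dp δ, T (Z δ x.1 (ih x.1 x.2.1).2) R2) < 𝔠 :=
      mk_biUnion_countable_lt Cardinal.aleph0_lt_continuum ((hDp δ).trans_le hκc) _ h3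
    have hne : ∃ v : C, v ∉ ⋃ x : Dp δ, T (Z δ x.1 (ih x.1 x.2.1).2) R2 := by
      by_contra hn
      push Not at hn
      have : (⋃ x : Dp δ, T (Z δ x.1 (ih x.1 x.2.1).2) R2) = Set.univ := eq_univ_of_forall hn
      rw [this, Cardinal.mk_univ, mk_C] at hlt
      exact lt_irrefl _ hlt
    obtain ⟨v, hv⟩ := hne
    refine ⟨(R2, v), h1, h2, ?_⟩
    intro δ' h hδ' hmem
    exact hv (mem_iUnion.2 ⟨⟨δ', hδ'⟩, hmem⟩)
  have hwf : WellFounded (fun δ' δ : D => (f δ').1 < (f δ).1) :=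
    InvImage.wf (fun δ => (f δ).1) wellFounded_lt
  let G : ∀ δ, (∀ δ', (f δ').1 < (f δ).1 → Set C × C) → Set C × C := fun δ ih =>
    (hex δ ih).choose
  have hG : ∀ δ ih, (G δ ih).1 ⊆ R1 δ ∧ Big (G δ ih).1 ∧
        ∀ δ' (h : (f δ').1 < (f δ).1), δ' ∈ Dp δ →
          (G δ ih).2 ∉ T (Z δ δ' (ih δ' h).2) (G δ ih).1 := fun δ ih => (hex δ ih).choose_spec
  let F : D → Set C × C := hwf.fix G
  have hF : ∀ δ, F δ = G δ (fun δ' _ => F δ') := fun δ => hwf.fix_eq G δ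
  have hF1 : ∀ δ, (F δ).1 ⊆ R1 δ ∧ Big (F δ).1 ∧
      ∀ δ', (f δ').1 < (f δ).1 → δ' ∈ Dp δ → (F δ).2 ∉ T (Z δ δ' (F δ').2) (F δ).1 := by
    intro δ
    have := hG δ (fun δ' _ => F δ')
    rw [← hF δ] at this
    exact this
  have hsubR : ∀ δ, (F δ).1 ⊆ R δ := fun δ a ha => (hR1sub δ ((hF1 δ).1 ha)).1
  have hlt : ∀ δ δ', (f δ').1 < (f δ).1 →
      {a ∈ (F δ).1 | ∃ a' ∈ (F δ').1, η δ a = η δ' a' ∧
        H δ a (F δ).2 = H δ' a' (F δ').2}.Countable := by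
    intro δ δ' h
    by_cases hd : δ' ∈ Dp δ
    · have h1 := (hF1 δ).2.2 δ' h hd
      have h2 : ((F δ).1 ∩ Z δ δ' (F δ').2 ⁻¹' {(F δ).2}).Countable := by
        by_contra hc
        exact h1 hc
      refine h2.mono ?_
      rintro a ⟨ha, a', ha', h3, h4⟩
      exact ⟨ha, hZ δ δ' _ a a' _ (hsubR δ ha) (hsubR δ' ha') h3 h4⟩
    · have h1 : {a ∈ R1 δ | ∃ a' ∈ R1 δ', η δ a = η δ' a'}.Countable := by
        by_contra hc
        exact hd ⟨h, hc⟩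
      refine h1.mono ?_
      rintro a ⟨ha, a', ha', h3, h4⟩
      exact ⟨(hF1 δ).1 ha, a', (hF1 δ').1 ha', h3⟩
  refine ⟨fun δ => (F δ).1, fun δ => (F δ).2, fun δ => ⟨hsubR δ, (hF1 δ).2.1⟩, ?_⟩
  intro δ δ' hne
  rcases lt_trichotomy (f δ').1 (f δ).1 with h | h | h
  · exact hlt δ δ' h
  · have : {a ∈ (F δ).1 | ∃ a' ∈ (F δ').1, η δ a = η δ' a' ∧
        H δ a (F δ).2 = H δ' a' (F δ').2} = ∅ := by
      rw [eq_empty_iff_forall_notMem]
      rintro a ⟨ha, a', ha', h3, h4⟩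
      apply hne
      apply hfinj
      refine Prod.ext h.symm ?_
      have e1 : π (f δ).1 (η δ a) = (f δ).2 := (hR1sub δ ((hF1 δ).1 ha)).2
      have e2 : π (f δ').1 (η δ' a') = (f δ').2 := (hR1sub δ' ((hF1 δ').1 ha')).2
      rw [← e1, ← e2, h, h3]
    exact this ▸ Set.countable_empty
  · have hs := hlt δ' δ h
    refine (hs.image (fun a' => Lη δ (η δ' a'))).mono ?_
    rintro a ⟨ha, a', ha', h3, h4⟩
    refine ⟨a', ⟨ha', a, ha, h3.symm, h4.symm⟩, ?_⟩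
    change Lη δ (η δ' a') = a
    rw [← h3, hLη δ a (hsubR δ ha)]

end Pool.Agent.H635.SK
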