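import Pool.Agent.H635.SK.Conf

/-!
# The final recursion
-/

namespace Pool.Agent.H635.SK

open Set Function Filter Topology Cardinal

theorem AS_le {A : Set ℕ} {P : ℕ → Set ℕ} (n : ℕ) (h : ∀ j ≤ n, AS A (P j)) :
    ∃ N, ∀ m ∈ A, N ≤ m → ∀ j ≤ n, m ∈ P j := by
  induction n with
  | zero =>
    obtain ⟨N, hN⟩ := h 0 le_rfl
    exact ⟨N, fun m hm hle j hj => by
      obtain rfl : j = 0 := by omega
      exact hN m hm hle⟩
  | succ n ih =>
    obtain ⟨N, hN⟩ := ih (fun j hj => h j (by omega))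
    obtain ⟨M, hM⟩ := h (n + 1) le_rfl
    refine ⟨max N M, fun m hm hle j hj => ?_⟩
    rcases Nat.lt_or_ge j (n + 1) with h' | h'
    · exact hN m hm (le_of_max_le_left hle) j (by omega)
    · obtain rfl : j = n + 1 := by omega
      exact hM m hm (le_of_max_le_right hle)

theorem AS_compl {A G : Set ℕ} (h : ¬ Inf (G ∩ A)) : AS A Gᶜ := by
  unfold Inf at h
  push Not at h
  obtain ⟨N, hN⟩ := h
  exact ⟨N, fun m hm hle hmG => hN m hle ⟨hmG, hm⟩⟩

theorem exists_res (s : List Bool) : ∃ x : C, PiNat.res x s.length = s := by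
  induction s with
  | nil => exact ⟨fun _ => false, rfl⟩
  | cons i u ih =>
    obtain ⟨x, hx⟩ := ih
    refine ⟨Function.update x u.length i, ?_⟩
    rw [List.length_cons, PiNat.res_succ]
    congr 1
    · simp
    · rw [← hx]
      rw [PiNat.res_length]
      apply PiNat.res_eq_res.2
      intro m hm
      rw [Function.update_of_ne (by omega)]

theorem step (R : Set C) (hR : CB R) (B : C → Set ℕ) (hB : MS B) (hinf : ∀ a ∈ R, Inf (B a))
    (E : ℕ → Set ℕ) (hE : ∀ a ∈ R, ∀ n, Dcd (E n) (B a)) (G : ℕ → Set ℕ)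
    (hG : ∀ n, {a ∈ R | Inf (G n ∩ B a)}.Countable) :
    ∃ S : Set ℕ, (∀ n, ¬ Inf (S ∩ G n)) ∧ ¬ {a ∈ R | Inf (S ∩ B a)}.Countable ∧
      ∀ T, T ⊆ S → Inf T → ∃ a ∈ R, ∃ T', T' ⊆ T ∧ Inf T' ∧
        ∀ n, AS T' (sd (E n) (nd (E n) (B a))) := by
  classical
  have hbadc : (⋃ n, {a ∈ R | Inf (G n ∩ B a)}).Countable := countable_iUnion hG
  have hbig : Big (R \ ⋃ n, {a ∈ R | Inf (G n ∩ B a)}) := by
    refine ⟨hR.big.1.diff hbadc.measurableSet, ?_⟩
    intro hc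
    apply hR.2
    refine (hc.union hbadc).mono ?_
    intro a ha
    by_cases h : a ∈ ⋃ n, {a ∈ R | Inf (G n ∩ B a)}
    · exact Or.inr h
    · exact Or.inl ⟨ha, h⟩
  obtain ⟨K₀, hK₀sub, hK₀⟩ := hbig.exists_CB
  have hK₀G : ∀ a ∈ K₀, ∀ n, ¬ Inf (G n ∩ B a) := by
    intro a ha n h
    exact (hK₀sub ha).2 (mem_iUnion.2 ⟨n, (hK₀sub ha).1, h⟩)
  obtain ⟨A, c, h1, h2, h3, h4, h5⟩ := ST K₀ hK₀
    (fun s K => ∃ (i : Fin (s.length + 1) → Bool) (m : ℕ), s.length ≤ m ∧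
      ∀ a ∈ K, m ∈ B a ∧ ∀ j : Fin (s.length + 1),
        m ∈ sd (E j) (i j) ∧ m ∉ G j ∧ nd (E j) (B a) = i j) (by
      intro s K hs hK
      obtain ⟨⟨i, m⟩, him⟩ := hK.big.pigeon
        (fun q : (Fin (s.length + 1) → Bool) × ℕ => {a | s.length ≤ q.2 ∧ (q.2 ∈ B a ∧
          ∀ j : Fin (s.length + 1), q.2 ∈ sd (E j) (q.1 j) ∧ q.2 ∉ G j ∧ nd (E j) (B a) = q.1 j)})
        (by
          rintro ⟨i, m⟩
          apply Measurable.setOf
          refine measurable_const.and ((hB m).and (Measurable.forall fun j => ?_))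
          refine measurable_const.and (measurable_const.and ?_)
          exact (hB.nd (E j)).eq_const (i j))
        (by
          intro a ha
          have haR : a ∈ R := (hK₀sub (hs ha)).1
          have hinfa := hinf a haR
          obtain ⟨N, hN⟩ := AS_le (A := B a)
            (P := fun j => sd (E j) (nd (E j) (B a)) ∩ (G j)ᶜ) s.length (fun j _ =>
              ((hE a haR j).nd hinfa).inter (AS_compl (hK₀G a (hs ha) j)))
          obtain ⟨m, hm, hmB⟩ := hinfa (max N s.length)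
          refine mem_iUnion.2 ⟨(fun j => nd (E j) (B a), m), le_of_max_le_right hm, hmB, ?_⟩
          intro j
          have := hN m hmB (le_of_max_le_left hm) j (by omega)
          exact ⟨this.1, this.2, rfl⟩)
      obtain ⟨K', hK', hK'c⟩ := him.exists_CB
      obtain ⟨a, ha⟩ := hK'c.big.nonempty
      exact ⟨K', fun x hx => (hK' hx).1, hK'c, i, m, (hK' ha).2.1, fun x hx => (hK' hx).2.2⟩)
  choose i m hlen hprop using fun s => (h1 s).2.2
  have hmG : ∀ s j, j ≤ s.length → m s ∉ G j := by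
    intro s j hj
    obtain ⟨a, ha⟩ := (h1 s).1.big.nonempty
    exact ((hprop s a ha).2 ⟨j, by omega⟩).2.1
  have hmE : ∀ s j, j ≤ s.length → ∀ a ∈ A s, m s ∈ sd (E j) (nd (E j) (B a)) := by
    intro s j hj a ha
    have := (hprop s a ha).2 ⟨j, by omega⟩
    rw [this.2.2]
    exact this.1
  have hbound : ∀ n, ∃ N, ∀ s : List Bool, s.length < n → m s < N := by
    intro n
    have hfin : (m '' {s : List Bool | s.length < n}).Finite :=
      (List.finite_length_lt Bool n).image m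
    obtain ⟨N, hN⟩ := hfin.bddAbove
    exact ⟨N + 1, fun s hs => Nat.lt_succ_of_le (hN ⟨s, hs, rfl⟩)⟩
  have hcK : ∀ x, c x ∈ K₀ := fun x => (h1 []).2.1 (h4 x 0)
  have hcR : ∀ x, c x ∈ R := fun x => (hK₀sub (hcK x)).1
  have hanti : ∀ (x : C) (n k : ℕ), n ≤ k → A (PiNat.res x k) ⊆ A (PiNat.res x n) := by
    intro x n k hnk
    induction k, hnk using Nat.le_induction with
    | base => exact Subset.rfl
    | succ k _ ih =>
      rw [PiNat.res_succ]
      exact (h2 _ _).trans ih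
  refine ⟨range m, ?_, ?_, ?_⟩
  · intro n hn
    obtain ⟨N, hN⟩ := hbound n
    obtain ⟨k, hk, ⟨s, rfl⟩, hkG⟩ := hn N
    have : ¬ s.length < n := fun h => absurd (hN s h) (by omega)
    exact hmG s n (by omega) hkG
  · intro hc
    refine not_countable_range h5 (hc.mono ?_)
    rintro _ ⟨x, rfl⟩
    refine ⟨hcR x, ?_⟩
    intro N
    refine ⟨m (PiNat.res x N), ?_, mem_range_self _, (hprop _ _ (h4 x N)).1⟩
    have := hlen (PiNat.res x N)
    rwa [PiNat.res_length] at this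
  · intro T hTS hT
    have hs : ∀ k, ∃ s : List Bool, k ≤ s.length ∧ m s ∈ T := by
      intro k
      obtain ⟨N, hN⟩ := hbound k
      obtain ⟨t, ht, htT⟩ := hT N
      obtain ⟨s, rfl⟩ := hTS htT
      exact ⟨s, by
        by_contra h
        push Not at h
        exact absurd (hN s h) (by omega), htT⟩
    choose s hslen hsT using hs
    choose x hx using fun k => exists_res (s k)
    obtain ⟨y, -, φ, hφ, hlim⟩ := isCompact_univ.tendsto_subseq (x := x) (fun _ => mem_univ _)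
    have hev : ∀ n, ∃ K, ∀ k ≥ K, PiNat.res (x (φ k)) n = PiNat.res y n := by
      intro n
      have h : ∀ j, ∀ᶠ k in atTop, x (φ k) j = y j := by
        intro j
        have := (tendsto_pi_nhds.1 hlim) j
        rw [nhds_discrete, tendsto_pure] at this
        exact this
      have h' : ∀ᶠ k in atTop, ∀ j ∈ Finset.range n, x (φ k) j = y j :=
        (Filter.eventually_all_finset _).2 (fun j _ => h j)
      obtain ⟨K, hK⟩ := eventually_atTop.1 h'
      refine ⟨K, fun k hk => PiNat.res_eq_res.2 ?_⟩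
      intro j hj
      exact hK k hk j (Finset.mem_range.2 hj)
    refine ⟨c y, hcR y, range (fun k => m (s (φ k))), ?_, ?_, ?_⟩
    · rintro _ ⟨k, rfl⟩
      exact hsT _
    · intro N
      refine ⟨m (s (φ N)), ?_, mem_range_self _⟩
      calc N ≤ φ N := hφ.id_le N
        _ ≤ (s (φ N)).length := hslen _
        _ ≤ _ := hlen _
    · intro n
      obtain ⟨K, hK⟩ := hev (n + 1)
      -- bound the first values
      have hfin : ((fun k => m (s (φ k))) '' Iio (max K (n + 1))).Finite := (finite_Iio _).image _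
      obtain ⟨M, hM⟩ := hfin.bddAbove
      refine ⟨M + 1, ?_⟩
      rintro _ ⟨k, rfl⟩ hle
      have hk : max K (n + 1) ≤ k := by
        by_contra hlt
        push Not at hlt
        have := hM ⟨k, hlt, rfl⟩
        simp only at this hle
        omega
      have hkK : K ≤ k := le_of_max_le_left hk
      have hkn : n + 1 ≤ k := le_of_max_le_right hk
      have hlen' : n + 1 ≤ (s (φ k)).length := by
        calc n + 1 ≤ k := hkn
          _ ≤ φ k := hφ.id_le k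
          _ ≤ _ := hslen _
      obtain ⟨a, ha⟩ := (h1 (s (φ k))).1.big.nonempty
      have hmem : m (s (φ k)) ∈ sd (E n) (nd (E n) (B a)) := hmE _ n (by omega) a ha
      have ha' : a ∈ A (PiNat.res y (n + 1)) := by
        rw [← hK k hkK]
        apply hanti (x (φ k)) (n + 1) _ hlen'
        rw [hx (φ k)]
        exact ha
      have e1 := ((hprop _ a ha').2 ⟨n, by rw [PiNat.res_length]; omega⟩).2.2
      have e2 := ((hprop _ (c y) (h4 y (n + 1))).2 ⟨n, by rw [PiNat.res_length]; omega⟩).2.2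
      rw [e1, ← e2] at hmem
      exact hmem

theorem not_inf_empty : ¬ Inf (∅ : Set ℕ) := by
  intro h
  obtain ⟨m, -, hm⟩ := h 0
  exact hm

/-- base partition -/
def cp (n : ℕ) : Set ℕ := {m | (Nat.unpair m).1 = n}

theorem cp_inf (n : ℕ) : Inf (cp n) := by
  intro N
  exact ⟨Nat.pair n N, Nat.right_le_pair n N, by simp [cp]⟩

theorem cp_disj {n m : ℕ} (h : n ≠ m) : cp n ∩ cp m = ∅ := by
  rw [eq_empty_iff_forall_notMem]
  rintro k ⟨h1, h2⟩
  exact h (by rw [← (show (Nat.unpair k).1 = n from h1), ← (show (Nat.unpair k).1 = m from h2)])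

theorem family {Ω D : Type} (e : Ω → Set ℕ) (N : D → Set Ω) (hN : ∀ δ, (N δ).Countable)
    (Rs : D → Set C) (hRs : ∀ δ, CB (Rs δ)) (B : D → C → Set ℕ) (hB : ∀ δ, MS (B δ))
    (hinf : ∀ δ, ∀ a ∈ Rs δ, Inf (B δ a))
    (hdcd : ∀ δ, ∀ a ∈ Rs δ, ∀ ξ ∈ N δ, Dcd (e ξ) (B δ a))
    (Δ : D → Set D) (hΔ : ∀ δ, (Δ δ).Countable) (hwf : WellFounded (fun δ' δ => δ' ∈ Δ δ))
    (hsep : ∀ δ δ', δ ≠ δ' → δ' ∈ Δ δ ∨ δ ∈ Δ δ' ∨ ∀ a ∈ Rs δ, ∀ a' ∈ Rs δ', ∃ ξ, ξ ∈ N δ ∧
      ξ ∈ N δ' ∧ nd (e ξ) (B δ a) ≠ nd (e ξ) (B δ' a')) :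
    ∃ 𝒜 : Set (Set ℕ), 𝒜.Infinite ∧ (∀ A ∈ 𝒜, Inf A) ∧
      (∀ A ∈ 𝒜, ∀ A' ∈ 𝒜, A ≠ A' → ¬ Inf (A ∩ A')) ∧
      ∀ δ, ∃ A ∈ 𝒜, ¬ {a ∈ Rs δ | Inf (A ∩ B δ a)}.Countable := by
  classical
  have hex : ∀ δ (ih : ∀ δ', δ' ∈ Δ δ → Set ℕ), ∃ S : Set ℕ,
      (∀ n, ¬ Inf (S ∩ cp n)) ∧ (∀ δ' h, ¬ Inf (S ∩ ih δ' h)) ∧
      (∀ T, T ⊆ S → Inf T → ∃ a ∈ Rs δ, ∃ T', T' ⊆ T ∧ Inf T' ∧
        ∀ ξ ∈ N δ, AS T' (sd (e ξ) (nd (e ξ) (B δ a)))) ∧
      ((¬ {a ∈ Rs δ | Inf (S ∩ B δ a)}.Countable) ∨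
        (∃ n, ¬ {a ∈ Rs δ | Inf (cp n ∩ B δ a)}.Countable) ∨
        (∃ δ' h, ¬ {a ∈ Rs δ | Inf (ih δ' h ∩ B δ a)}.Countable)) := by
    intro δ ih
    by_cases hskip : (∃ n, ¬ {a ∈ Rs δ | Inf (cp n ∩ B δ a)}.Countable) ∨
        (∃ δ' h, ¬ {a ∈ Rs δ | Inf (ih δ' h ∩ B δ a)}.Countable)
    · refine ⟨∅, ?_, ?_, ?_, Or.inr hskip⟩
      · intro n h
        exact not_inf_empty (by simpa using h)
      · intro δ' h' h
        exact not_inf_empty (by simpa using h)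
      · intro T hT hTi
        rw [Set.subset_empty_iff.1 hT] at hTi
        exact absurd hTi not_inf_empty
    · push Not at hskip
      obtain ⟨hs1, hs2⟩ := hskip
      have : Countable (Δ δ) := (hΔ δ).to_subtype
      have : Countable (N δ) := (hN δ).to_subtype
      obtain ⟨f, hf⟩ := exists_surjective_nat (ℕ ⊕ Δ δ)
      obtain ⟨g, hg⟩ := exists_surjective_nat (Option (N δ))
      let G : ℕ ⊕ Δ δ → Set ℕ := Sum.elim cp (fun x => ih x.1 x.2)
      let E : Option (N δ) → Set ℕ := fun o => o.elim univ (fun ξ => e ξ.1)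
      obtain ⟨S, hS1, hS2, hS3⟩ := step (Rs δ) (hRs δ) (B δ) (hB δ) (hinf δ) (fun n => E (g n))
        (by
          intro a ha n
          rcases hgn : g n with _ | ξ
          · exact ⟨true, AS.of_subset (subset_univ _)⟩
          · exact hdcd δ a ha ξ.1 ξ.2)
        (fun n => G (f n)) (by
          intro n
          rcases hfn : f n with k | x
          · exact hs1 k
          · exact hs2 x.1 x.2)
      refine ⟨S, ?_, ?_, ?_, Or.inl hS2⟩
      · intro k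
        obtain ⟨n, hn⟩ := hf (Sum.inl k)
        have := hS1 n
        rw [hn] at this
        exact this
      · intro δ' h'
        obtain ⟨n, hn⟩ := hf (Sum.inr ⟨δ', h'⟩)
        have := hS1 n
        rw [hn] at this
        exact this
      · intro T hT hTi
        obtain ⟨a, ha, T', hT', hT'i, hT'n⟩ := hS3 T hT hTi
        refine ⟨a, ha, T', hT', hT'i, ?_⟩
        intro ξ hξ
        obtain ⟨n, hn⟩ := hg (some ⟨ξ, hξ⟩)
        have := hT'n n
        rw [hn] at this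
        exact this
  let G : ∀ δ, (∀ δ', δ' ∈ Δ δ → Set ℕ) → Set ℕ := fun δ ih => (hex δ ih).choose
  have hGspec := fun δ ih => (hex δ ih).choose_spec
  let F : D → Set ℕ := hwf.fix G
  have hF : ∀ δ, F δ = G δ (fun δ' _ => F δ') := fun δ => hwf.fix_eq G δ
  have hF1 : ∀ δ, (∀ n, ¬ Inf (F δ ∩ cp n)) ∧ (∀ δ' ∈ Δ δ, ¬ Inf (F δ ∩ F δ')) ∧
      (∀ T, T ⊆ F δ → Inf T → ∃ a ∈ Rs δ, ∃ T', T' ⊆ T ∧ Inf T' ∧
        ∀ ξ ∈ N δ, AS T' (sd (e ξ) (nd (e ξ) (B δ a)))) ∧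
      ((¬ {a ∈ Rs δ | Inf (F δ ∩ B δ a)}.Countable) ∨
        (∃ n, ¬ {a ∈ Rs δ | Inf (cp n ∩ B δ a)}.Countable) ∨
        (∃ δ', ∃ _ : δ' ∈ Δ δ, ¬ {a ∈ Rs δ | Inf (F δ' ∩ B δ a)}.Countable)) := by
    intro δ
    have := hGspec δ (fun δ' _ => F δ')
    change (∀ n, ¬ Inf (G δ (fun δ' _ => F δ') ∩ cp n)) ∧ _ at this
    rw [hF δ]
    exact this
  have hdisj : ∀ δ δ', δ ≠ δ' → ¬ Inf (F δ ∩ F δ') := by
    intro δ δ' hne hi
    rcases hsep δ δ' hne with h | h | h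
    · exact (hF1 δ).2.1 δ' h hi
    · rw [inter_comm] at hi
      exact (hF1 δ').2.1 δ h hi
    · obtain ⟨a, ha, T, hT, hTi, hTn⟩ := (hF1 δ).2.2.1 _ inter_subset_left hi
      obtain ⟨a', ha', T', hT', hT'i, hT'n⟩ := (hF1 δ').2.2.1 T (hT.trans inter_subset_right) hTi
      obtain ⟨ξ, h1, h2, h3⟩ := h a ha a' ha'
      apply h3
      have e1 := nd_eq hT'i ((AS.of_subset hT').trans (hTn ξ h1))
      have e2 := nd_eq hT'i (hT'n ξ h2)
      rw [← e1, ← e2]
  refine ⟨range cp ∪ {A | ∃ δ, A = F δ ∧ Inf A}, ?_, ?_, ?_, ?_⟩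
  · apply Set.Infinite.mono subset_union_left
    apply infinite_range_of_injective
    intro n m hnm
    by_contra hne
    have h1 := cp_disj hne
    have h2 := cp_inf m
    rw [hnm, inter_self] at h1
    rw [h1] at h2
    exact not_inf_empty h2
  · rintro A (⟨n, rfl⟩ | ⟨δ, -, h⟩)
    · exact cp_inf n
    · exact h
  · rintro A (⟨n, rfl⟩ | ⟨δ, rfl, -⟩) A' (⟨m, rfl⟩ | ⟨δ', rfl, -⟩) hne
    · rw [cp_disj (fun h => hne (by rw [h]))]
      exact not_inf_empty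
    · rw [inter_comm]
      exact (hF1 δ').1 n
    · exact (hF1 δ).1 m
    · exact hdisj δ δ' (fun h => hne (by rw [h]))
  · intro δ
    have hInf : ∀ A : Set ℕ, ¬ {a ∈ Rs δ | Inf (A ∩ B δ a)}.Countable → Inf A := by
      intro A hA
      have hne : {a ∈ Rs δ | Inf (A ∩ B δ a)}.Nonempty := by
        by_contra h
        rw [not_nonempty_iff_eq_empty] at h
        rw [h] at hA
        exact hA countable_empty
      obtain ⟨a, -, ha⟩ := hne
      exact ha.mono (AS.of_subset inter_subset_left)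
    rcases (hF1 δ).2.2.2 with h | ⟨n, h⟩ | ⟨δ', -, h⟩
    · exact ⟨F δ, Or.inr ⟨δ, rfl, hInf _ h⟩, h⟩
    · exact ⟨cp n, Or.inl ⟨n, rfl⟩, h⟩
    · exact ⟨F δ', Or.inr ⟨δ', rfl, hInf _ h⟩, h⟩

end Pool.Agent.H635.SK
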