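import Pool.Agent.H635.SK.Big

/-!
# The set of values with uncountable fibre is countable or of size continuum
-/

namespace Pool.Agent.H635.SK

open Set Function Filter Topology Cardinal

/-- values with an uncountable fibre in `R` -/
def T (π : C → C) (R : Set C) : Set C := {y | ¬ (R ∩ π ⁻¹' {y}).Countable}

theorem fib_aux {X : Type} [TopologicalSpace X] [PolishSpace X] {π : X → C}
    (hπ : Continuous π) {R : Set X} (hR : IsClosed R)
    (hunc : ¬ {y : C | ¬ (R ∩ π ⁻¹' {y}).Countable}.Countable) :
    ∃ f : C → C, Injective f ∧ ∀ a, f a ∈ {y : C | ¬ (R ∩ π ⁻¹' {y}).Countable} := by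
  classical
  let : MeasurableSpace X := borel X
  have : BorelSpace X := ⟨rfl⟩
  let 𝔅 := TopologicalSpace.countableBasis X
  have hbasis := TopologicalSpace.isBasis_countableBasis X
  have hcount : Countable 𝔅 := (TopologicalSpace.countable_countableBasis X).to_subtype
  let W : Set (ℕ → X) := {x | (∀ k, x k ∈ R) ∧ (∀ k, π (x k) = π (x 0)) ∧
    ∀ k, ∀ U : 𝔅, x k ∈ U.1 → ∃ j, x j ∈ U.1 ∧ x j ≠ x k}
  have hW : MeasurableSet W := by
    apply MeasurableSet.inter
    · apply Measurable.setOf
      apply Measurable.forall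
      intro k
      exact Measurable.comp (g := fun z : X => z ∈ R) (hR.measurableSet.mem) (measurable_pi_apply k)
    · apply MeasurableSet.inter
      · apply Measurable.setOf
        apply Measurable.forall
        intro k
        have : MeasurableSet {x : ℕ → X | π (x k) = π (x 0)} :=
          measurableSet_eq_fun (hπ.measurable.comp (measurable_pi_apply k))
            (hπ.measurable.comp (measurable_pi_apply 0))
        exact this.mem
      · apply Measurable.setOf
        apply Measurable.forall
        intro k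
        apply Measurable.forall
        intro U
        have hU : MeasurableSet U.1 := (hbasis.isOpen U.2).measurableSet
        apply Measurable.imp
        · exact Measurable.comp (g := fun z : X => z ∈ U.1) hU.mem (measurable_pi_apply k)
        · apply Measurable.exists
          intro j
          apply Measurable.and
          · exact Measurable.comp (g := fun z : X => z ∈ U.1) hU.mem (measurable_pi_apply j)
          · apply Measurable.not
            have : MeasurableSet {x : ℕ → X | x j = x k} :=
              measurableSet_eq_fun (measurable_pi_apply j) (measurable_pi_apply k)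
            exact this.mem
  have hg : Measurable (fun x : ℕ → X => π (x 0)) := hπ.measurable.comp (measurable_pi_apply 0)
  have hsub : {y : C | ¬ (R ∩ π ⁻¹' {y}).Countable} ⊆ (fun x : ℕ → X => π (x 0)) '' W := by
    intro y hy
    have hcl : IsClosed (R ∩ π ⁻¹' {y}) := hR.inter (isClosed_singleton.preimage hπ)
    obtain ⟨D, hD, hDne, hDsub⟩ := exists_perfect_nonempty_of_isClosed_of_not_countable hcl hy
    have hne : Nonempty D := hDne.to_subtype
    let x : ℕ → X := fun k => (TopologicalSpace.denseSeq D k : X)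
    have hxD : ∀ k, x k ∈ D := fun k => (TopologicalSpace.denseSeq D k).2
    have hπx : ∀ k, π (x k) = y := fun k => (hDsub (hxD k)).2
    refine ⟨x, ⟨fun k => (hDsub (hxD k)).1, fun k => by rw [hπx, hπx], ?_⟩, hπx 0⟩
    intro k U hxU
    have hUo := hbasis.isOpen U.2
    have hpre := (preperfect_iff_nhds.1 hD.acc) (x k) (hxD k) U.1 (hUo.mem_nhds hxU)
    obtain ⟨z, ⟨hzU, hzD⟩, hzne⟩ := hpre
    have hopen : IsOpen (Subtype.val ⁻¹' (U.1 \ {x k}) : Set D) :=
      (hUo.sdiff isClosed_singleton).preimage continuous_subtype_val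
    obtain ⟨j, hj⟩ := (TopologicalSpace.denseRange_denseSeq D).exists_mem_open hopen
      ⟨⟨z, hzD⟩, hzU, hzne⟩
    exact ⟨j, hj.1, hj.2⟩
  have hunc' : ¬ ((fun x : ℕ → X => π (x 0)) '' W).Countable := fun h => hunc (h.mono hsub)
  obtain ⟨c, h1, h2, h3⟩ := exists_embed hW hg hunc'
  refine ⟨fun a => π (c a 0), h3, ?_⟩
  intro a
  have ha := h2 a
  let x := c a
  have hx : x ∈ W := ha
  change ¬ (R ∩ π ⁻¹' {π (x 0)}).Countable
  have hpre : Preperfect (range x) := by
    rw [preperfect_iff_nhds]
    rintro _ ⟨k, rfl⟩ V hV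
    obtain ⟨U, hU, hxU, hUV⟩ := hbasis.mem_nhds_iff.1 hV
    obtain ⟨j, hj1, hj2⟩ := hx.2.2 k ⟨U, hU⟩ hxU
    exact ⟨x j, ⟨hUV hj1, mem_range_self j⟩, hj2⟩
  have hperf := hpre.perfect_closure
  have hcl : IsClosed (R ∩ π ⁻¹' {π (x 0)}) := hR.inter (isClosed_singleton.preimage hπ)
  have hsub' : closure (range x) ⊆ R ∩ π ⁻¹' {π (x 0)} := by
    apply closure_minimal _ hcl
    rintro _ ⟨k, rfl⟩
    exact ⟨hx.1 k, hx.2.1 k⟩
  let := TopologicalSpace.upgradeIsCompletelyMetrizable X
  obtain ⟨f, hf1, hf2, hf3⟩ := hperf.exists_nat_bool_injection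
    ⟨x 0, subset_closure (mem_range_self 0)⟩
  intro hc
  exact not_countable_range hf3 (hc.mono (hf1.trans hsub'))

theorem mk_T {π : C → C} (hπ : Measurable π) {R : Set C} (hR : MeasurableSet R)
    (h : ¬ (T π R).Countable) : 𝔠 ≤ #(T π R) := by
  obtain ⟨t', t't, t'_polish, hg', hcl⟩ := refine_top hR hπ
  obtain ⟨f, hf1, hf2⟩ := @fib_aux C t' t'_polish π hg' R hcl h
  rw [← mk_C]
  exact Cardinal.mk_le_of_injective (f := fun a => (⟨f a, hf2 a⟩ : T π R))
    (fun a b hab => hf1 (congrArg Subtype.val hab))

end Pool.Agent.H635.SK
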