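import Pool.Agent.H635.SK.Fam

/-!
# The hitting family
-/

namespace Pool.Agent.H635.SK

open Set Function Filter Topology Cardinal

theorem mk_measSets : #{t : Set C // MeasurableSet t} ≤ 𝔠 := by
  have hcg := MeasurableSpace.countable_countableGeneratingSet (α := C)
  have h := @MeasurableSpace.cardinal_measurableSet_le_continuum C
    (MeasurableSpace.countableGeneratingSet C)
    ((Cardinal.le_aleph0_iff_set_countable.2 hcg).trans Cardinal.aleph0_le_continuum)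
  rw [MeasurableSpace.generateFrom_countableGeneratingSet] at h
  exact h

/-- index type of the construction -/
def DD : Type := {F : C → Set ℕ // MS F ∧ ∀ x, Inf (F x)}

theorem mk_DD : #DD ≤ 𝔠 := by
  have h2 : Injective (fun F : DD => (fun n : ℕ => (⟨{x | n ∈ F.1 x}, (F.2.1 n).setOf⟩ :
      {t : Set C // MeasurableSet t}))) := by
    intro F G hFG
    apply Subtype.ext
    funext x
    ext n
    have h3 : {x | n ∈ F.1 x} = {x | n ∈ G.1 x} := congrArg Subtype.val (congrFun hFG n)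
    exact Set.ext_iff.1 h3 x
  refine (Cardinal.mk_le_of_injective h2).trans ?_
  rw [← Cardinal.power_def, Cardinal.mk_nat]
  calc #{t : Set C // MeasurableSet t} ^ ℵ₀ ≤ 𝔠 ^ ℵ₀ := Cardinal.power_le_power_right mk_measSets
    _ = 𝔠 := Cardinal.continuum_power_aleph0

/-- the hitting property -/
def Hits (𝒜 : Set (Set ℕ)) : Prop :=
  ∀ F : C → Set ℕ, MS F → (∀ x, Inf (F x)) → ∃ A ∈ 𝒜, ¬ {x | Inf (A ∩ F x)}.Countable

theorem hit_CH (hCH : (𝔠 : Cardinal.{0}) ≤ ℵ₁) : ∃ 𝒜 : Set (Set ℕ), 𝒜.Infinite ∧ (∀ A ∈ 𝒜, Inf A) ∧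
    (∀ A ∈ 𝒜, ∀ A' ∈ 𝒜, A ≠ A' → ¬ Inf (A ∩ A')) ∧ Hits 𝒜 := by
  obtain ⟨lt, hwo, hsmall⟩ := exists_small_wo DD
  obtain ⟨𝒜, h1, h2, h3, h4⟩ := family (Ω := Empty) (D := DD) (fun x => x.elim) (fun _ => ∅)
    (fun _ => countable_empty) (fun _ => Set.univ) (fun _ => CB_univ) (fun δ => δ.1)
    (fun δ => δ.2.1) (fun δ a _ => δ.2.2 a) (fun δ a _ ξ => ξ.elim) (fun δ => {x | lt x δ})
    (by
      intro δ
      apply Cardinal.le_aleph0_iff_set_countable.1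
      have hlt : #{x // lt x δ} < ℵ₁ := (hsmall δ).trans_le (mk_DD.trans hCH)
      exact Cardinal.lt_aleph_one_iff.1 hlt)
    hwo.wf (by
      intro δ δ' hne
      rcases trichotomous_of lt δ δ' with h | h | h
      · exact Or.inr (Or.inl h)
      · exact absurd h hne
      · exact Or.inl h)
  refine ⟨𝒜, h1, h2, h3, ?_⟩
  intro F hF hFi
  obtain ⟨A, hA, hAc⟩ := h4 ⟨F, hF, hFi⟩
  refine ⟨A, hA, fun hc => hAc (hc.mono ?_)⟩
  rintro a ⟨-, ha⟩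
  exact ha

theorem hit_Sys {Ω : Type} [LinearOrder Ω] [WellFoundedLT Ω] (S : Sys Ω) :
    ∃ 𝒜 : Set (Set ℕ), 𝒜.Infinite ∧ (∀ A ∈ 𝒜, Inf A) ∧
    (∀ A ∈ 𝒜, ∀ A' ∈ 𝒜, A ≠ A' → ¬ Inf (A ∩ A')) ∧ Hits 𝒜 := by
  obtain ⟨μ, l, R, B, p, hlμ, hR, hB, hinf, hsub, hp, hdcd, hinj, hcount, h4⟩ :=
    S.stage2 mk_DD (fun δ : DD => δ.1) (fun δ => δ.2.1) (fun δ => δ.2.2)
  obtain ⟨Rs, Δ, hRs, hΔ, hΔμ, hsep⟩ := S.stage3 μ l R B mk_DD hlμ hR hB hinj hcount h4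
  obtain ⟨𝒜, k1, k2, k3, k4⟩ := family S.e (fun δ => Iic (μ δ)) (fun δ => S.countable_Iic _) Rs
    (fun δ => (hRs δ).2) B hB (fun δ a ha => hinf δ a ((hRs δ).1 ha))
    (fun δ a _ ξ hξ => hdcd δ a ξ hξ) Δ hΔ
    (Subrelation.wf (fun {δ' δ} h => hΔμ δ δ' h) (InvImage.wf μ wellFounded_lt))
    (by
      intro δ δ' hne
      rcases hsep δ δ' hne with h | h | h
      · exact Or.inl h
      · exact Or.inr (Or.inl h)
      · right; right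
        intro a ha a' ha'
        obtain ⟨ξ, e1, e2, e3⟩ := h a ha a' ha'
        exact ⟨ξ, e1, e2, e3⟩)
  refine ⟨𝒜, k1, k2, k3, ?_⟩
  intro F hF hFi
  obtain ⟨A, hA, hAc⟩ := k4 ⟨F, hF, hFi⟩
  refine ⟨A, hA, fun hc => hAc ?_⟩
  refine countable_via (g := p ⟨F, hF, hFi⟩) ((hp _).injOn) hc ?_
  rintro a ⟨-, ha⟩
  exact ha.mono (AS.of_subset (inter_subset_inter_right A (hsub ⟨F, hF, hFi⟩ a)))

theorem exists_Sys (𝒮 : Set (Set ℕ)) (h𝒮 : #𝒮 ≤ ℵ₁)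
    (hs : ∀ X : Set ℕ, X.Infinite → ∃ S ∈ 𝒮, (X ∩ S).Infinite ∧ (X \ S).Infinite)
    (hc : (ℵ₁ : Cardinal.{0}) < 𝔠) : Nonempty (Sys (ℵ₁ : Cardinal.{0}).ord.ToType) := by
  classical
  have hmk : #(ℵ₁ : Cardinal.{0}).ord.ToType = ℵ₁ := Cardinal.mk_ord_toType _
  have hne : 𝒮.Nonempty := by
    obtain ⟨S, hS, -⟩ := hs Set.univ Set.infinite_univ
    exact ⟨S, hS⟩
  have hne' : Nonempty 𝒮 := hne.to_subtype
  obtain ⟨f, hf⟩ := Cardinal.le_def _ _ |>.1 (h𝒮.trans_eq hmk.symm)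
  have hsurj : Surjective (invFun f) := invFun_surjective hf
  have hIio : ∀ μ : (ℵ₁ : Cardinal.{0}).ord.ToType, (Iio μ).Countable := fun μ =>
    Cardinal.le_aleph0_iff_set_countable.1 (Cardinal.lt_aleph_one_iff.1 (mk_Iio_lt_aux μ))
  have hIic : ∀ μ : (ℵ₁ : Cardinal.{0}).ord.ToType, (Iic μ).Countable := by
    intro μ
    rw [← Iio_insert]
    exact (hIio μ).insert μ
  choose ζ hζ using fun μ : (ℵ₁ : Cardinal.{0}).ord.ToType =>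
    (hIic μ).exists_eq_range ⟨μ, mem_Iic.2 le_rfl⟩
  refine ⟨⟨fun ξ => (invFun f ξ).1, ζ, fun μ => (hζ μ).symm, ?_, ?_, ?_⟩⟩
  · intro s hs'
    by_contra hn
    push Not at hn
    have hcov : (Set.univ : Set (ℵ₁ : Cardinal.{0}).ord.ToType) ⊆ ⋃ x ∈ s, Iio x := by
      intro μ _
      obtain ⟨x, hx, hlt⟩ := hn μ
      exact mem_biUnion hx hlt
    have hcount := (hs'.biUnion fun x _ => hIio x).mono hcov
    have h1 : #(ℵ₁ : Cardinal.{0}).ord.ToType ≤ ℵ₀ := by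
      have := Cardinal.le_aleph0_iff_set_countable.2 hcount
      rwa [Cardinal.mk_univ] at this
    rw [hmk] at h1
    exact absurd h1 (not_le.2 Cardinal.aleph0_lt_aleph_one)
  · intro b hb
    obtain ⟨S, hS, h1, h2⟩ := hs b (inf_iff.1 hb)
    obtain ⟨ξ, hξ⟩ := hsurj ⟨S, hS⟩
    refine ⟨ξ, fun i => ?_⟩
    rw [hξ]
    cases i
    · exact inf_iff.2 h2
    · exact inf_iff.2 h1
  · rw [hmk]
    exact hc

theorem hit_of_splitting (𝒮 : Set (Set ℕ)) (h𝒮 : #𝒮 ≤ ℵ₁)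
    (hs : ∀ X : Set ℕ, X.Infinite → ∃ S ∈ 𝒮, (X ∩ S).Infinite ∧ (X \ S).Infinite) :
    ∃ 𝒜 : Set (Set ℕ), 𝒜.Infinite ∧ (∀ A ∈ 𝒜, Inf A) ∧
    (∀ A ∈ 𝒜, ∀ A' ∈ 𝒜, A ≠ A' → ¬ Inf (A ∩ A')) ∧ Hits 𝒜 := by
  rcases le_or_gt 𝔠 (ℵ₁ : Cardinal.{0}) with h | h
  · exact hit_CH h
  · obtain ⟨S⟩ := exists_Sys 𝒮 h𝒮 hs h
    exact hit_Sys S

end Pool.Agent.H635.SK
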