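import Pool.Agent.H635.SK.Node

/-!
# The two levels of the construction
-/

namespace Pool.Agent.H635.SK

open Set Function Filter Topology Cardinal

theorem exists_first_diff {a b : C} (h : a ≠ b) :
    ∃ n, PiNat.res a n = PiNat.res b n ∧ a n ≠ b n := by
  by_contra hn
  push Not at hn
  apply h
  have : ∀ n, PiNat.res a n = PiNat.res b n := by
    intro n
    induction n with
    | zero => rfl
    | succ n ih => rw [PiNat.res_succ, PiNat.res_succ, ih, hn n ih]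
  exact PiNat.res_injective (funext this)

namespace Sys

variable {Ω : Type} [LinearOrder Ω] [WellFoundedLT Ω] (S : Sys Ω)

theorem level1 {F : C → Set ℕ} (hF : MS F) (hinf : ∀ x, Inf (F x)) :
    ∃ (μ : Ω) (b : C → Set ℕ) (p : C → C), MS b ∧ Injective p ∧
      (∀ a, Inf (b a) ∧ b a ⊆ F (p a) ∧ ∀ ξ ≤ μ, Dcd (S.e ξ) (b a)) ∧
      Injective (fun a => S.nc μ (b a)) := by
  obtain ⟨μ₀, -⟩ := S.exists_lsp (hinf (fun _ => false))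
  obtain ⟨μ, hμ⟩ := CB_univ.big.pigeon_lt S.hlt (fun μ => {x | S.Good μ (F x)})
    (fun μ => (S.meas_Good hF μ).setOf) (by
      intro x _
      obtain ⟨μ, -, h⟩ := S.exists_Good (hinf x) μ₀
      exact mem_iUnion.2 ⟨μ, h⟩)
  obtain ⟨K₀, hK₀sub, hK₀⟩ := hμ.exists_CB
  have hcount : Countable (Iic μ) := (S.countable_Iic μ).to_subtype
  obtain ⟨A, c, h1, h2, h3, h4, h5⟩ := ST K₀ hK₀
    (fun s K => ∃ ξ : Iic μ, ∀ x ∈ K, S.lsp (S.Bs (Iic μ) (F x) s) ξ) (by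
      intro s K hs hK
      obtain ⟨ξ, hξ⟩ := hK.big.pigeon (fun ξ : Iic μ => {x | S.lsp (S.Bs (Iic μ) (F x) s) ξ})
        (fun ξ => (S.meas_lsp (S.meas_Bs hF μ s) ξ).setOf) (by
          intro x hx
          have hg : S.Good μ (F x) := (hK₀sub (hs hx)).2
          obtain ⟨ξ, hξ⟩ := hg.2 s
          exact mem_iUnion.2 ⟨ξ, hξ⟩)
      obtain ⟨K', hK', hK'c⟩ := hξ.exists_CB
      exact ⟨K', fun x hx => (hK' hx).1, hK'c, ξ, fun x hx => (hK' hx).2⟩)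
  have hgood : ∀ a, S.Good μ (F (c a)) := fun a => (hK₀sub ((h1 []).2.1 (h4 a 0))).2
  refine ⟨μ, fun a => S.Y μ (F (c a)) a, c, ?_, h5, ?_, ?_⟩
  · exact (S.meas_Y hF μ).comp (h3.measurable.prodMk measurable_id)
  · intro a
    exact ⟨S.Y_inf (hgood a) a, S.Y_sub _ _ _, fun ξ hξ => S.Y_dcd μ _ a hξ⟩
  · intro a a' haa'
    by_contra hne
    obtain ⟨n, hn1, hn2⟩ := exists_first_diff hne
    obtain ⟨ξ, hξ⟩ := (h1 (PiNat.res a n)).2.2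
    have e1 := S.Y_node (hgood a) a n ξ.2 (hξ _ (h4 a n))
    have e2 := S.Y_node (hgood a') a' n ξ.2 (by
      have := hξ (c a') (by rw [hn1]; exact h4 a' n)
      rw [hn1] at this
      exact this)
    have e3 := (S.nc_eq.1 haa') ξ.1 ξ.2
    exact hn2 (by rw [← e1, ← e2]; exact e3)

theorem exists_dat {F : C → Set ℕ} (hF : MS F) (hinf : ∀ x, Inf (F x)) :
    ∃ (μ l : Ω) (R : Set C) (b : C → Set ℕ) (p : C → C), l ≤ μ ∧ CB R ∧ MS b ∧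
      (∀ a ∈ R, S.Good μ (b a)) ∧ (∀ a, b a ⊆ F (p a)) ∧ Injective p ∧
      InjOn (fun a => S.nc l (b a)) R ∧
      (∀ l' < l, ((fun a => S.nc l' (b a)) '' R).Countable) ∧
      (∀ a, ∀ ξ ≤ l, Dcd (S.e ξ) (b a)) := by
  obtain ⟨μ₁, b, p, hb, hp, hprop, hinj⟩ := S.level1 hF hinf
  obtain ⟨μ, hμ⟩ := CB_univ.big.pigeon_lt S.hlt (fun μ => {x | μ₁ ≤ μ ∧ S.Good μ (b x)})
    (fun μ => (measurable_const.and (S.meas_Good hb μ)).setOf) (by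
      intro x _
      obtain ⟨μ, h0, h⟩ := S.exists_Good (hprop x).1 μ₁
      exact mem_iUnion.2 ⟨μ, h0, h⟩)
  set P := Set.univ ∩ {x | μ₁ ≤ μ ∧ S.Good μ (b x)} with hP
  let Λ : Set Ω := {l | ∃ R, R ⊆ P ∧ Big R ∧ InjOn (fun a => S.nc l (b a)) R}
  have hΛ : Λ.Nonempty := ⟨μ₁, P, Subset.rfl, hμ, hinj.injOn⟩
  set l := wellFounded_lt.min Λ hΛ with hl
  have hlΛ : l ∈ Λ := wellFounded_lt.min_mem Λ hΛ
  have hlmin : ∀ l' < l, l' ∉ Λ := fun l' h h' => wellFounded_lt.not_lt_min Λ h' h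
  have hlμ₁ : l ≤ μ₁ := by
    by_contra h
    push Not at h
    exact hlmin μ₁ h ⟨P, Subset.rfl, hμ, hinj.injOn⟩
  obtain ⟨R₀, hR₀P, hR₀, hR₀inj⟩ := hlΛ
  obtain ⟨K₀, hK₀sub, hK₀⟩ := hR₀.exists_CB
  obtain ⟨R, hRsub, hR, hlev⟩ := ST_level K₀ hK₀
    (fun n K => S.ζ l n < l → ∃ y, ∀ a ∈ K, S.nc (S.ζ l n) (b a) = y) (by
      intro n K hs hK
      obtain ⟨K', h1, h2, h3⟩ := const_or_inj hK.big (S.meas_nc hb (S.ζ l n))
      refine ⟨K', h1, h2, ?_⟩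
      intro hlt
      rcases h3 with h3 | h3
      · exact h3
      · exfalso
        exact hlmin _ hlt ⟨K', (h1.trans (hs.trans (hK₀sub.trans hR₀P))), h2.big, h3⟩)
  have hPne : μ₁ ≤ μ := by
    obtain ⟨x, hx⟩ := hμ.nonempty
    exact hx.2.1
  have hRP : R ⊆ P := hRsub.trans (hK₀sub.trans hR₀P)
  refine ⟨μ, l, R, b, p, hlμ₁.trans hPne, hR, hb, fun a ha => (hRP ha).2.2,
    fun a => (hprop a).2.1, hp, hR₀inj.mono (hRsub.trans hK₀sub), ?_,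
    fun a ξ hξ => (hprop a).2.2 ξ (hξ.trans hlμ₁)⟩
  intro l' hl'
  have : l' ∈ range (S.ζ l) := by rw [S.hζ]; exact hl'.le
  obtain ⟨n, rfl⟩ := this
  obtain ⟨G, hG, hRG, hGD⟩ := hlev n
  have hsub : ((fun a => S.nc (S.ζ l n) (b a)) '' R) ⊆
      ⋃ K ∈ G, ((fun a => S.nc (S.ζ l n) (b a)) '' K) := by
    rintro _ ⟨a, ha, rfl⟩
    obtain ⟨K, hK, haK⟩ := mem_sUnion.1 (hRG ha)
    exact mem_biUnion hK ⟨a, haK, rfl⟩
  refine Set.Countable.mono hsub (hG.countable.biUnion fun K hK => ?_)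
  obtain ⟨y, hy⟩ := hGD K hK hl'
  refine (countable_singleton y).mono ?_
  rintro _ ⟨a, ha, rfl⟩
  exact hy a ha

/-- Stage 2: simultaneous choice of the branches. -/
theorem stage2 {D : Type} (hD : #D ≤ 𝔠) (F : D → C → Set ℕ) (hF : ∀ δ, MS (F δ))
    (hinf : ∀ δ x, Inf (F δ x)) :
    ∃ (μ l : D → Ω) (R : D → Set C) (B : D → C → Set ℕ) (p : D → C → C),
      (∀ δ, l δ ≤ μ δ) ∧ (∀ δ, Big (R δ)) ∧ (∀ δ, MS (B δ)) ∧ (∀ δ, ∀ a ∈ R δ, Inf (B δ a)) ∧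
      (∀ δ a, B δ a ⊆ F δ (p δ a)) ∧ (∀ δ, Injective (p δ)) ∧
      (∀ δ a, ∀ ξ ≤ μ δ, Dcd (S.e ξ) (B δ a)) ∧
      (∀ δ, InjOn (fun a => S.nc (l δ) (B δ a)) (R δ)) ∧
      (∀ δ, ∀ l' < l δ, ((fun a => S.nc l' (B δ a)) '' R δ).Countable) ∧
      (∀ δ δ', δ ≠ δ' → μ δ = μ δ' → l δ = l δ' →
        {a ∈ R δ | ∃ a' ∈ R δ', S.nc (μ δ) (B δ a) = S.nc (μ δ) (B δ' a')}.Countable) := by
  choose μ l R b p hlμ hR hb hgood hbF hp hinj hcount hdcd using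
    fun δ => S.exists_dat (hF δ) (hinf δ)
  obtain ⟨R', v, h1, h2⟩ := elem hD R (fun δ => (hR δ).big)
    (fun δ a => S.nc (l δ) (b δ a)) (fun δ => S.meas_nc (hb δ) _) hinj
    (fun δ a z => S.nc (μ δ) (S.Y (μ δ) (b δ a) z))
    (fun δ => S.meas_nc (S.meas_Y (hb δ) (μ δ)) _) (by
      intro δ a ha z z' hzz'
      by_contra hne
      obtain ⟨n, hn1, hn2⟩ := exists_first_diff hne
      obtain ⟨ξ, hξ⟩ := (hgood δ a ha).2 (PiNat.res z n)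
      have e1 := S.Y_node (hgood δ a ha) z n ξ.2 hξ
      have e2 := S.Y_node (hgood δ a ha) z' n ξ.2 (by rw [← hn1]; exact hξ)
      have e3 := (S.nc_eq.1 hzz') ξ.1 ξ.2
      exact hn2 (by rw [← e1, ← e2]; exact e3))
  have hncl : ∀ δ, ∀ a ∈ R δ, ∀ l' ≤ l δ,
      S.nc l' (S.Y (μ δ) (b δ a) (v δ)) = S.nc l' (b δ a) := by
    intro δ a ha l' hl'
    rw [S.nc_eq]
    intro ξ hξ
    exact nd_mono (S.Y_inf (hgood δ a ha) _) (hdcd δ a ξ (hξ.trans hl'))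
      (AS.of_subset (S.Y_sub _ _ _))
  refine ⟨μ, l, R', fun δ a => S.Y (μ δ) (b δ a) (v δ), p, hlμ, fun δ => (h1 δ).2, ?_, ?_, ?_,
    hp, ?_, ?_, ?_, ?_⟩
  · intro δ
    exact (S.meas_Y (hb δ) (μ δ)).comp (measurable_id.prodMk measurable_const)
  · intro δ a ha
    exact S.Y_inf (hgood δ a ((h1 δ).1 ha)) _
  · intro δ a
    exact (S.Y_sub _ _ _).trans (hbF δ a)
  · intro δ a ξ hξ
    exact S.Y_dcd _ _ _ hξ
  · intro δ a ha a' ha' haa'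
    have haa : S.nc (l δ) (S.Y (μ δ) (b δ a) (v δ)) = S.nc (l δ) (S.Y (μ δ) (b δ a') (v δ)) := haa'
    rw [hncl δ a ((h1 δ).1 ha) _ le_rfl, hncl δ a' ((h1 δ).1 ha') _ le_rfl] at haa
    exact hinj δ ((h1 δ).1 ha) ((h1 δ).1 ha') haa
  · intro δ l' hl'
    refine (hcount δ l' hl').mono ?_
    rintro _ ⟨a, ha, rfl⟩
    exact ⟨a, (h1 δ).1 ha, (hncl δ a ((h1 δ).1 ha) l' hl'.le).symm⟩
  · intro δ δ' hne hμ hl
    refine (h2 δ δ' hne).mono ?_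
    rintro a ⟨ha, a', ha', h⟩
    refine ⟨ha, a', ha', ?_, ?_⟩
    · change S.nc (l δ) (b δ a) = S.nc (l δ') (b δ' a')
      rw [← hncl δ a ((h1 δ).1 ha) _ le_rfl, ← hncl δ' a' ((h1 δ').1 ha') _ le_rfl, ← hl]
      rw [S.nc_eq]
      intro ξ hξ
      exact (S.nc_eq.1 h) ξ (hξ.trans (hlμ δ))
    · change S.nc (μ δ) (S.Y (μ δ) (b δ a) (v δ)) = S.nc (μ δ') (S.Y (μ δ') (b δ' a') (v δ'))
      have h' : S.nc (μ δ) (S.Y (μ δ) (b δ a) (v δ)) =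
          S.nc (μ δ) (S.Y (μ δ') (b δ' a') (v δ')) := h
      rw [← hμ] at h' ⊢
      exact h'

end Sys

end Pool.Agent.H635.SK
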