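import Pool.Agent.H635.SK.Elem

/-!
# Splitting trees and nodes
-/

namespace Pool.Agent.H635.SK

open Set Function Filter Topology Cardinal

/-- infinite, in explicit form -/
def Inf (A : Set ℕ) : Prop := ∀ N, ∃ m, N ≤ m ∧ m ∈ A

theorem inf_iff {A : Set ℕ} : Inf A ↔ A.Infinite := by
  constructor
  · intro h hf
    obtain ⟨N, hN⟩ := hf.bddAbove
    obtain ⟨m, hm, hmA⟩ := h (N + 1)
    have := hN hmA
    omega
  · intro h N
    obtain ⟨m, hm, hNm⟩ := h.exists_gt N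
    exact ⟨m, hNm.le, hm⟩

/-- almost inclusion -/
def AS (A B : Set ℕ) : Prop := ∃ N, ∀ m ∈ A, N ≤ m → m ∈ B

theorem AS.trans {A B D : Set ℕ} (h1 : AS A B) (h2 : AS B D) : AS A D := by
  obtain ⟨N, hN⟩ := h1
  obtain ⟨M, hM⟩ := h2
  exact ⟨max N M, fun m hm hle => hM m (hN m hm (le_of_max_le_left hle)) (le_of_max_le_right hle)⟩

theorem AS.of_subset {A B : Set ℕ} (h : A ⊆ B) : AS A B := ⟨0, fun _ hm _ => h hm⟩

theorem AS.inter {A B D : Set ℕ} (h1 : AS A B) (h2 : AS A D) : AS A (B ∩ D) := by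
  obtain ⟨N, hN⟩ := h1
  obtain ⟨M, hM⟩ := h2
  exact ⟨max N M, fun m hm hle => ⟨hN m hm (le_of_max_le_left hle), hM m hm (le_of_max_le_right hle)⟩⟩

theorem Inf.mono {A B : Set ℕ} (h : Inf A) (hs : AS A B) : Inf B := by
  intro N
  obtain ⟨M, hM⟩ := hs
  obtain ⟨m, hm, hmA⟩ := h (max N M)
  exact ⟨m, le_of_max_le_left hm, hM m hmA (le_of_max_le_right hm)⟩

theorem not_AS_compl {A B : Set ℕ} (h : Inf A) (h1 : AS A B) (h2 : AS A Bᶜ) : False := by
  obtain ⟨m, -, hm⟩ := (h.mono (h1.inter h2)) 0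
  exact hm.2 hm.1

/-- the two sides of a set -/
def sd (E : Set ℕ) (i : Bool) : Set ℕ := if i then E else Eᶜ

/-- `E` splits `A` -/
def Spl (E A : Set ℕ) : Prop := ∀ i, Inf (A ∩ sd E i)

/-- the coordinate of `A` at `E` -/
noncomputable def nd (E A : Set ℕ) : Bool := @decide (AS A E) (Classical.dec _)

/-- `A` is decided by `E` -/
def Dcd (E A : Set ℕ) : Prop := ∃ i, AS A (sd E i)

theorem nd_eq {E A : Set ℕ} (hA : Inf A) {i : Bool} (h : AS A (sd E i)) : nd E A = i := by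
  classical
  unfold nd
  cases i
  · have h' : AS A Eᶜ := h
    simp only [decide_eq_false_iff_not]
    intro h2
    exact not_AS_compl hA h2 h'
  · have h' : AS A E := h
    simp [h']

theorem Dcd.nd {E A : Set ℕ} (hA : Inf A) (h : Dcd E A) : AS A (sd E (nd E A)) := by
  obtain ⟨i, hi⟩ := h
  rw [nd_eq hA hi]
  exact hi

theorem Dcd.mono {E A B : Set ℕ} (h : Dcd E A) (hs : AS B A) : Dcd E B := by
  obtain ⟨i, hi⟩ := h
  exact ⟨i, hs.trans hi⟩

theorem nd_mono {E A B : Set ℕ} (hB : Inf B) (h : Dcd E A) (hs : AS B A) :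
    SK.nd E B = SK.nd E A := by
  have hA : Inf A := hB.mono hs
  exact nd_eq hB (hs.trans (h.nd hA))

/-! ### Measurability -/

section meas
variable {X : Type*} [MeasurableSpace X]

/-- measurable families of sets -/
def MS (B : X → Set ℕ) : Prop := ∀ m, Measurable (fun x => m ∈ B x)

theorem MS.inf {B : X → Set ℕ} (h : MS B) : Measurable (fun x => Inf (B x)) := by
  unfold Inf
  refine Measurable.forall fun N => Measurable.exists fun m => ?_
  exact measurable_const.and (h m)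

theorem MS.inter {A B : X → Set ℕ} (hA : MS A) (hB : MS B) : MS (fun x => A x ∩ B x) :=
  fun m => (hA m).and (hB m)

theorem MS.const (A : Set ℕ) : MS (fun _ : X => A) := fun _ => measurable_const

theorem MS.comp {Y : Type*} [MeasurableSpace Y] {B : X → Set ℕ} (h : MS B) {f : Y → X}
    (hf : Measurable f) : MS (fun y => B (f y)) := fun m => (h m).comp hf

theorem MS.as {A B : X → Set ℕ} (hA : MS A) (hB : MS B) : Measurable (fun x => AS (A x) (B x)) := by
  unfold AS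
  refine Measurable.exists fun N => Measurable.forall fun m => ?_
  refine Measurable.imp (hA m) (Measurable.imp measurable_const (hB m))

theorem MS.spl {B : X → Set ℕ} (h : MS B) (E : Set ℕ) : Measurable (fun x => Spl E (B x)) := by
  unfold Spl
  refine Measurable.forall fun i => ?_
  exact (h.inter (MS.const (sd E i))).inf

theorem MS.nd {B : X → Set ℕ} (h : MS B) (E : Set ℕ) : Measurable (fun x => SK.nd E (B x)) := by
  classical
  apply measurable_to_bool
  have : (fun x => SK.nd E (B x)) ⁻¹' {true} = {x | AS (B x) E} := by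
    ext x
    simp [SK.nd]
  rw [this]
  exact (h.as (MS.const E)).setOf

end meas

/-! ### Pseudo-intersections -/

/-- pseudo-intersection operator -/
def pin (B : ℕ → Set ℕ) : Set ℕ := {m | ∃ n, n ≤ m ∧ m ∈ B n ∧ ∀ j, n ≤ j → j < m → j ∉ B n}

theorem pin_inf {B : ℕ → Set ℕ} (h : ∀ n, Inf (B n)) : Inf (pin B) := by
  classical
  intro N
  have hex : ∃ m, N ≤ m ∧ m ∈ B N := h N N
  refine ⟨Nat.find hex, (Nat.find_spec hex).1, N, (Nat.find_spec hex).1, (Nat.find_spec hex).2, ?_⟩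
  intro j hj hlt hjB
  exact Nat.find_min hex hlt ⟨hj, hjB⟩

theorem pin_as {B : ℕ → Set ℕ} (h : ∀ n, B (n + 1) ⊆ B n) (n : ℕ) : AS (pin B) (B n) := by
  have hanti : ∀ n m, n ≤ m → B m ⊆ B n := by
    intro n m hnm
    induction m, hnm using Nat.le_induction with
    | base => exact Subset.rfl
    | succ m _ ih => exact (h m).trans ih
  have hfin : {m | ∃ k, k < n ∧ k ≤ m ∧ m ∈ B k ∧ ∀ j, k ≤ j → j < m → j ∉ B k}.Finite := by
    have : {m | ∃ k, k < n ∧ k ≤ m ∧ m ∈ B k ∧ ∀ j, k ≤ j → j < m → j ∉ B k} =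
        ⋃ k ∈ Iio n, {m | k ≤ m ∧ m ∈ B k ∧ ∀ j, k ≤ j → j < m → j ∉ B k} := by
      ext m
      constructor
      · rintro ⟨k, hk, h⟩
        exact mem_biUnion (x := k) hk h
      · intro h
        obtain ⟨k, hk, h⟩ := mem_iUnion₂.1 h
        exact ⟨k, hk, h⟩
    rw [this]
    refine (finite_Iio n).biUnion fun k _ => ?_
    apply Set.Subsingleton.finite
    rintro a ⟨ha1, ha2, ha3⟩ b ⟨hb1, hb2, hb3⟩
    rcases lt_trichotomy a b with h' | h' | h'
    · exact absurd ha2 (hb3 a ha1 h')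
    · exact h'
    · exact absurd hb2 (ha3 b hb1 h')
  obtain ⟨N, hN⟩ := hfin.bddAbove
  refine ⟨N + 1, ?_⟩
  rintro m ⟨k, hk, hkB, hkm⟩ hle
  by_cases hkn : k < n
  · have := hN (show m ∈ {m | ∃ k, k < n ∧ k ≤ m ∧ m ∈ B k ∧ ∀ j, k ≤ j → j < m → j ∉ B k} from
      ⟨k, hkn, hk, hkB, hkm⟩)
    omega
  · exact hanti n k (by omega) hkB

theorem pin_sub {B : ℕ → Set ℕ} (h : ∀ n, B (n + 1) ⊆ B n) : pin B ⊆ B 0 := by
  have hanti : ∀ n, B n ⊆ B 0 := by
    intro n
    induction n with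
    | zero => exact Subset.rfl
    | succ n ih => exact (h n).trans ih
  rintro m ⟨k, hk, hkB, hkm⟩
  exact hanti k hkB

theorem MS.pin {X : Type*} [MeasurableSpace X] {B : X → ℕ → Set ℕ} (h : ∀ n, MS (fun x => B x n)) :
    MS (fun x => pin (B x)) := by
  intro m
  unfold SK.pin
  refine Measurable.exists fun n => ?_
  refine measurable_const.and ((h n m).and ?_)
  refine Measurable.forall fun j => ?_
  exact Measurable.imp measurable_const (Measurable.imp measurable_const (h n j).not)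

/-! ### Deciding countably many sets -/

/-- deciding sequence -/
def dseq (E : ℕ → Set ℕ) (A : Set ℕ) : ℕ → Set ℕ
  | 0 => A
  | n + 1 => {m | m ∈ dseq E A n ∧ (Inf (dseq E A n ∩ E n) → m ∈ E n)}

theorem dseq_sub (E : ℕ → Set ℕ) (A : Set ℕ) (n : ℕ) : dseq E A (n + 1) ⊆ dseq E A n :=
  fun _ hm => hm.1

theorem dseq_inf (E : ℕ → Set ℕ) {A : Set ℕ} (hA : Inf A) (n : ℕ) : Inf (dseq E A n) := by
  induction n with
  | zero => exact hA
  | succ n ih =>
    by_cases h : Inf (dseq E A n ∩ E n)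
    · exact h.mono (AS.of_subset fun m hm => ⟨hm.1, fun _ => hm.2⟩)
    · exact ih.mono (AS.of_subset fun m hm => ⟨hm, fun h' => absurd h' h⟩)

theorem dseq_dcd (E : ℕ → Set ℕ) (A : Set ℕ) (n : ℕ) : Dcd (E n) (dseq E A (n + 1)) := by
  by_cases h : Inf (dseq E A n ∩ E n)
  · exact ⟨true, AS.of_subset fun m hm => hm.2 h⟩
  · refine ⟨false, ?_⟩
    unfold Inf at h
    push Not at h
    obtain ⟨N, hN⟩ := h
    exact ⟨N, fun m hm hle hmE => hN m hle ⟨hm.1, hmE⟩⟩

/-- infinite subset deciding all `E n` -/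
def dec (E : ℕ → Set ℕ) (A : Set ℕ) : Set ℕ := pin (dseq E A)

theorem dec_sub (E : ℕ → Set ℕ) (A : Set ℕ) : dec E A ⊆ A := pin_sub (dseq_sub E A)

theorem dec_inf (E : ℕ → Set ℕ) {A : Set ℕ} (hA : Inf A) : Inf (dec E A) :=
  pin_inf (dseq_inf E hA)

theorem dec_dcd (E : ℕ → Set ℕ) (A : Set ℕ) (n : ℕ) : Dcd (E n) (dec E A) :=
  (dseq_dcd E A n).mono (pin_as (dseq_sub E A) (n + 1))

theorem MS.dec {X : Type*} [MeasurableSpace X] (E : ℕ → Set ℕ) {A : X → Set ℕ} (h : MS A) :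
    MS (fun x => dec E (A x)) := by
  apply MS.pin
  intro n
  induction n with
  | zero => exact h
  | succ n ih =>
    intro m
    exact (ih m).and (Measurable.imp (ih.inter (MS.const (E n))).inf measurable_const)

/-! ### The system -/

/-- a splitting family indexed by the countable ordinals -/
structure Sys (Ω : Type) [LinearOrder Ω] [WellFoundedLT Ω] where
  e : Ω → Set ℕ
  ζ : Ω → ℕ → Ω
  hζ : ∀ μ, range (ζ μ) = Iic μ
  hcof : ∀ s : Set Ω, s.Countable → ∃ μ, ∀ x ∈ s, x ≤ μ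
  hspl : ∀ b, Inf b → ∃ ξ, Spl (e ξ) b
  hlt : #Ω < 𝔠

namespace Sys

variable {Ω : Type} [LinearOrder Ω] [WellFoundedLT Ω] (S : Sys Ω)

include S in
theorem countable_Iic (μ : Ω) : (Iic μ).Countable := by
  rw [← S.hζ μ]
  exact countable_range _

include S in
theorem countable_Iio (μ : Ω) : (Iio μ).Countable :=
  (S.countable_Iic μ).mono Iio_subset_Iic_self

/-- least splitter -/
def lsp (A : Set ℕ) (ξ : Ω) : Prop := Spl (S.e ξ) A ∧ ∀ ξ' : Iio ξ, ¬ Spl (S.e ξ') A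

theorem lsp_unique {A : Set ℕ} {ξ ξ' : Ω} (h : S.lsp A ξ) (h' : S.lsp A ξ') : ξ = ξ' := by
  rcases lt_trichotomy ξ ξ' with hl | hl | hl
  · exact absurd h.1 (h'.2 ⟨ξ, hl⟩)
  · exact hl
  · exact absurd h'.1 (h.2 ⟨ξ', hl⟩)

theorem exists_lsp {A : Set ℕ} (hA : Inf A) : ∃ ξ, S.lsp A ξ := by
  obtain ⟨ξ, hξ⟩ := S.hspl A hA
  have hne : {ξ | Spl (S.e ξ) A}.Nonempty := ⟨ξ, hξ⟩
  refine ⟨wellFounded_lt.min _ hne, wellFounded_lt.min_mem _ hne, ?_⟩
  rintro ⟨ξ', hξ'⟩ h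
  exact wellFounded_lt.not_lt_min _ h hξ'

/-- recursive halving -/
def Bs (P : Set Ω) (b : Set ℕ) : List Bool → Set ℕ
  | [] => b
  | i :: u => {m | m ∈ Bs P b u ∧ ∃ ξ : P, S.lsp (Bs P b u) ξ ∧ m ∈ sd (S.e ξ) i}

theorem Bs_sub (P : Set Ω) (b : Set ℕ) (i : Bool) (u : List Bool) :
    S.Bs P b (i :: u) ⊆ S.Bs P b u := fun _ hm => hm.1

theorem Bs_cons {P : Set Ω} {b : Set ℕ} {u : List Bool} {ξ : Ω} (hξ : ξ ∈ P)
    (h : S.lsp (S.Bs P b u) ξ) (i : Bool) :
    S.Bs P b (i :: u) = S.Bs P b u ∩ sd (S.e ξ) i := by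
  ext m
  constructor
  · rintro ⟨h1, ξ', h2, h3⟩
    rw [S.lsp_unique h h2]
    exact ⟨h1, h3⟩
  · rintro ⟨h1, h3⟩
    exact ⟨h1, ⟨ξ, hξ⟩, h, h3⟩

/-- all nodes of the halving tree are split below `μ` -/
def Good (μ : Ω) (b : Set ℕ) : Prop :=
  Inf b ∧ ∀ u : List Bool, ∃ ξ : Iic μ, S.lsp (S.Bs (Iic μ) b u) ξ

theorem exists_Good {b : Set ℕ} (hb : Inf b) (μ₀ : Ω) : ∃ μ, μ₀ ≤ μ ∧ S.Good μ b := by
  have hinf : ∀ u, Inf (S.Bs univ b u) := by
    intro u
    induction u with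
    | nil => exact hb
    | cons i u ih =>
      obtain ⟨ξ, hξ⟩ := S.exists_lsp ih
      rw [S.Bs_cons (mem_univ _) hξ]
      exact hξ.1 i
  have hex : ∀ u, ∃ ξ, S.lsp (S.Bs univ b u) ξ := fun u => S.exists_lsp (hinf u)
  choose f hf using hex
  obtain ⟨μ, hμ⟩ := S.hcof (insert μ₀ (range f)) ((countable_range f).insert _)
  have hle : ∀ u, f u ≤ μ := fun u => hμ _ (Or.inr (mem_range_self u))
  have heq : ∀ u, S.Bs (Iic μ) b u = S.Bs univ b u := by
    intro u
    induction u with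
    | nil => rfl
    | cons i u ih =>
      rw [S.Bs_cons (mem_univ _) (hf u), S.Bs_cons (P := Iic μ) (hle u) (by rw [ih]; exact hf u), ih]
  refine ⟨μ, hμ _ (Or.inl rfl), hb, fun u => ⟨⟨f u, hle u⟩, ?_⟩⟩
  rw [heq]
  exact hf u

theorem Bs_inf {μ : Ω} {b : Set ℕ} (h : S.Good μ b) (u : List Bool) : Inf (S.Bs (Iic μ) b u) := by
  induction u with
  | nil => exact h.1
  | cons i u ih =>
    obtain ⟨ξ, hξ⟩ := h.2 u
    rw [S.Bs_cons ξ.2 hξ]
    exact hξ.1 i

/-- the set at the branch `z` -/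
def Y (μ : Ω) (b : Set ℕ) (z : C) : Set ℕ :=
  dec (fun n => S.e (S.ζ μ n)) (pin (fun n => S.Bs (Iic μ) b (PiNat.res z n)))

theorem Bs_res_sub (P : Set Ω) (b : Set ℕ) (z : C) (n : ℕ) :
    S.Bs P b (PiNat.res z (n + 1)) ⊆ S.Bs P b (PiNat.res z n) := by
  rw [PiNat.res_succ]
  exact S.Bs_sub _ _ _ _

theorem Y_sub (μ : Ω) (b : Set ℕ) (z : C) : S.Y μ b z ⊆ b :=
  (dec_sub _ _).trans (pin_sub (S.Bs_res_sub _ b z))

theorem Y_inf {μ : Ω} {b : Set ℕ} (h : S.Good μ b) (z : C) : Inf (S.Y μ b z) :=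
  dec_inf _ (pin_inf fun _ => S.Bs_inf h _)

theorem Y_dcd (μ : Ω) (b : Set ℕ) (z : C) {ξ : Ω} (hξ : ξ ≤ μ) : Dcd (S.e ξ) (S.Y μ b z) := by
  have : ξ ∈ range (S.ζ μ) := by rw [S.hζ]; exact hξ
  obtain ⟨n, rfl⟩ := this
  exact dec_dcd (fun n => S.e (S.ζ μ n)) _ n

theorem Y_node {μ : Ω} {b : Set ℕ} (h : S.Good μ b) (z : C) (n : ℕ) {ξ : Ω} (hξ : ξ ≤ μ)
    (hl : S.lsp (S.Bs (Iic μ) b (PiNat.res z n)) ξ) : nd (S.e ξ) (S.Y μ b z) = z n := by
  apply nd_eq (S.Y_inf h z)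
  have h1 : AS (S.Y μ b z) (S.Bs (Iic μ) b (PiNat.res z (n + 1))) :=
    (AS.of_subset (dec_sub _ _)).trans (pin_as (S.Bs_res_sub _ b z) (n + 1))
  refine h1.trans (AS.of_subset ?_)
  rw [PiNat.res_succ, S.Bs_cons (P := Iic μ) hξ hl]
  exact inter_subset_right

/-- coded node -/
noncomputable def nc (μ : Ω) (A : Set ℕ) : C := fun n => nd (S.e (S.ζ μ n)) A

theorem nc_eq {μ : Ω} {A B : Set ℕ} : S.nc μ A = S.nc μ B ↔ ∀ ξ ≤ μ, nd (S.e ξ) A = nd (S.e ξ) B := by
  constructor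
  · intro h ξ hξ
    have : ξ ∈ range (S.ζ μ) := by rw [S.hζ]; exact hξ
    obtain ⟨n, rfl⟩ := this
    exact congrFun h n
  · intro h
    funext n
    apply h
    have : S.ζ μ n ∈ range (S.ζ μ) := mem_range_self n
    rw [S.hζ] at this
    exact this

section meas
variable {X : Type*} [MeasurableSpace X]

theorem meas_nc {A : X → Set ℕ} (h : MS A) (μ : Ω) : Measurable (fun x => S.nc μ (A x)) :=
  measurable_pi_lambda _ fun _ => h.nd _

theorem meas_lsp {A : X → Set ℕ} (h : MS A) (ξ : Ω) : Measurable (fun x => S.lsp (A x) ξ) := by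
  have : Countable (Iio ξ) := (S.countable_Iio ξ).to_subtype
  unfold lsp
  refine (h.spl _).and (Measurable.forall fun ξ' => (h.spl _).not)

theorem meas_Bs {b : X → Set ℕ} (h : MS b) (μ : Ω) (u : List Bool) :
    MS (fun x => S.Bs (Iic μ) (b x) u) := by
  have : Countable (Iic μ) := (S.countable_Iic μ).to_subtype
  induction u with
  | nil => exact h
  | cons i u ih =>
    intro m
    refine (ih m).and (Measurable.exists fun ξ => ?_)
    exact (S.meas_lsp ih ξ).and measurable_const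

theorem meas_Good {b : X → Set ℕ} (h : MS b) (μ : Ω) : Measurable (fun x => S.Good μ (b x)) := by
  have : Countable (Iic μ) := (S.countable_Iic μ).to_subtype
  unfold Good
  refine h.inf.and (Measurable.forall fun u => Measurable.exists fun ξ => ?_)
  exact S.meas_lsp (S.meas_Bs h μ u) ξ

end meas

end Sys

theorem meas_res (n : ℕ) (u : List Bool) : Measurable (fun z : C => PiNat.res z n = u) := by
  induction n generalizing u with
  | zero =>
    simp only [PiNat.res_zero]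
    exact measurable_const
  | succ n ih =>
    simp only [PiNat.res_succ]
    cases u with
    | nil => simp
    | cons i u =>
      simp only [List.cons.injEq]
      refine Measurable.and ?_ (ih u)
      exact Measurable.eq_const (f := fun z : C => z n) (measurable_pi_apply n) i

namespace Sys

variable {Ω : Type} [LinearOrder Ω] [WellFoundedLT Ω] (S : Sys Ω)
variable {X : Type*} [MeasurableSpace X]

theorem meas_Y {b : X → Set ℕ} (h : MS b) (μ : Ω) : MS (fun p : X × C => S.Y μ (b p.1) p.2) := by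
  apply MS.dec
  apply MS.pin
  intro n m
  have heq : (fun p : X × C => m ∈ S.Bs (Iic μ) (b p.1) (PiNat.res p.2 n)) =
      fun p : X × C => ∃ u : List Bool, PiNat.res p.2 n = u ∧ m ∈ S.Bs (Iic μ) (b p.1) u := by
    funext p
    simp
  rw [heq]
  refine Measurable.exists fun u => Measurable.and ?_ ?_
  · exact (meas_res n u).comp measurable_snd
  · exact (S.meas_Bs h μ u m).comp measurable_fst

end Sys

end Pool.Agent.H635.SK
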