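import Pool.Agent.H635.SK.Hit
import Pool.Agent.H635.SK.Defs

/-!
# From the hitting property to Sacks indestructibility
-/

namespace Pool.Agent.H635.SK

open Set Function Filter Topology

/-- initial segments of a branch -/
def rs (x : C) (n : ℕ) : List Bool := (List.range n).map x

theorem rs_succ (x : C) (n : ℕ) : rs x (n + 1) = rs x n ++ [x n] := by
  unfold rs
  rw [List.range_succ, List.map_append]
  rfl

@[simp] theorem rs_length (x : C) (n : ℕ) : (rs x n).length = n := by
  unfold rs
  simp

theorem rs_prefix (x : C) {n m : ℕ} (h : n ≤ m) : rs x n <+: rs x m := by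
  induction m, h using Nat.le_induction with
  | base => exact List.prefix_rfl
  | succ m _ ih =>
    rw [rs_succ]
    exact ih.trans (List.prefix_append _ _)

theorem rs_eq {x y : C} {n : ℕ} : rs x n = rs y n ↔ ∀ m < n, x m = y m := by
  unfold rs
  rw [List.map_inj_left]
  simp

theorem rs_of_prefix {x : C} {s : List Bool} {n : ℕ} (h : s <+: rs x n) : s = rs x s.length := by
  have hle : s.length ≤ n := by
    have := h.length_le
    simpa using this
  have h2 := rs_prefix x hle
  exact (List.prefix_of_prefix_length_le h h2 (by simp)).eq_of_length (by simp)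

theorem exists_rs (s : List Bool) : ∃ x : C, rs x s.length = s := by
  refine ⟨fun k => s.getD k false, ?_⟩
  unfold rs
  apply List.ext_getElem
  · simp
  · intro n h1 h2
    simp only [List.getElem_map, List.getElem_range]
    rw [List.getD_eq_getElem _ _ h2]

theorem cyl_open (x : C) (n : ℕ) : IsOpen {y : C | rs y n = rs x n} := by
  have : {y : C | rs y n = rs x n} = PiNat.cylinder x n := by
    ext y
    rw [PiNat.mem_cylinder_iff]
    exact rs_eq
  rw [this]
  exact PiNat.isOpen_cylinder _ x n

theorem cyl_basis {x : C} {U : Set C} (hU : U ∈ 𝓝 x) : ∃ n, ∀ y, rs y n = rs x n → y ∈ U := by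
  obtain ⟨V, ⟨z, n, rfl⟩, hxV, hVU⟩ :=
    (PiNat.isTopologicalBasis_cylinders (fun _ : ℕ => Bool)).mem_nhds_iff.1 hU
  refine ⟨n, fun y hy => hVU ?_⟩
  rw [PiNat.mem_cylinder_iff] at hxV ⊢
  intro i hi
  rw [rs_eq.1 hy i hi, hxV i hi]

theorem isClosed_rs_mem (T : Set (List Bool)) (n : ℕ) : IsClosed {x : C | rs x n ∈ T} := by
  rw [← isOpen_compl_iff, isOpen_iff_forall_mem_open]
  intro x hx
  refine ⟨{y : C | rs y n = rs x n}, ?_, cyl_open x n, rfl⟩
  intro y hy hyT
  have hy' : rs y n = rs x n := hy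
  apply hx
  have : rs y n ∈ T := hyT
  rw [hy'] at this
  exact this

theorem isClosed_cyl (s : List Bool) (n : ℕ) : IsClosed {x : C | rs x n = s} :=
  isClosed_rs_mem {s} n

/-- branches of a perfect tree -/
def body (p : PerfectTree) : Set C := {x | ∀ n, rs x n ∈ p.T}

theorem body_closed (p : PerfectTree) : IsClosed (body p) := by
  have : body p = ⋂ n, {x : C | rs x n ∈ p.T} := by
    ext x
    simp [body]
  rw [this]
  exact isClosed_iInter fun n => isClosed_rs_mem _ n

theorem ext_one (p : PerfectTree) {s : List Bool} (hs : s ∈ p.T) : ∃ i, s ++ [i] ∈ p.T := by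
  obtain ⟨t, ht, ⟨w, rfl⟩, h0, -⟩ := p.splits s hs
  cases w with
  | nil => exact ⟨false, by simpa using h0⟩
  | cons i w => exact ⟨i, p.closed _ (s ++ i :: w) ⟨w, by simp⟩ ht⟩

theorem ext_len (p : PerfectTree) {s : List Bool} (hs : s ∈ p.T) (k : ℕ) :
    ∃ t ∈ p.T, s <+: t ∧ t.length = s.length + k := by
  induction k with
  | zero => exact ⟨s, hs, List.prefix_rfl, rfl⟩
  | succ k ih =>
    obtain ⟨t, ht, hst, hlen⟩ := ih
    obtain ⟨i, hi⟩ := ext_one p ht
    exact ⟨t ++ [i], hi, hst.trans (List.prefix_append _ _), by simp [hlen]; omega⟩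

theorem exists_branch (p : PerfectTree) {s : List Bool} (hs : s ∈ p.T) :
    ∃ x ∈ body p, rs x s.length = s := by
  let K : ℕ → Set C := fun k => {x | rs x s.length = s} ∩ {x | rs x (s.length + k) ∈ p.T}
  have hK := IsCompact.nonempty_iInter_of_sequence_nonempty_isCompact_isClosed K (by
      intro k x hx
      refine ⟨hx.1, ?_⟩
      exact p.closed _ _ (rs_prefix x (by omega)) hx.2)
    (by
      intro k
      obtain ⟨t, ht, hst, hlen⟩ := ext_len p hs k
      obtain ⟨x, hx⟩ := exists_rs t
      refine ⟨x, ?_, ?_⟩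
      · change rs x s.length = s
        rw [← hx] at hst
        exact (rs_of_prefix hst).symm
      · change rs x (s.length + k) ∈ p.T
        rw [← hlen, hx]
        exact ht)
    ((isClosed_cyl s _).inter (isClosed_rs_mem _ _)).isCompact
    (fun k => (isClosed_cyl s _).inter (isClosed_rs_mem _ _))
  obtain ⟨x, hx⟩ := hK
  rw [mem_iInter] at hx
  refine ⟨x, ?_, (hx 0).1⟩
  intro n
  exact p.closed _ _ (rs_prefix x (Nat.le_add_left n s.length)) (hx n).2

theorem body_CB (p : PerfectTree) : CB (body p) := by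
  refine ⟨body_closed p, ?_⟩
  have hpre : Preperfect (body p) := by
    rw [preperfect_iff_nhds]
    intro x hx U hU
    obtain ⟨n, hn⟩ := cyl_basis hU
    obtain ⟨t, ht, hxt, h0, h1⟩ := p.splits (rs x n) (hx n)
    have hi : t ++ [!(x t.length)] ∈ p.T := by
      cases x t.length
      · exact h1
      · exact h0
    obtain ⟨y, hy, hyt⟩ := exists_branch p hi
    have hpt : t ++ [!(x t.length)] = rs y (t.length + 1) := by
      rw [← hyt]; simp
    refine ⟨y, ⟨hn y ?_, hy⟩, ?_⟩
    · have h3 : rs x n <+: rs y (t.length + 1) := by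
        rw [← hpt]
        exact hxt.trans (List.prefix_append _ _)
      have := rs_of_prefix h3
      rw [rs_length] at this
      exact this.symm
    · rintro rfl
      rw [rs_succ] at hpt
      have h4 := List.append_inj_right' hpt rfl
      simp at h4
  have hperf : Perfect (body p) := ⟨body_closed p, hpre⟩
  let := TopologicalSpace.upgradeIsCompletelyMetrizable C
  obtain ⟨f, hf1, hf2, hf3⟩ := hperf.exists_nat_bool_injection (by
    obtain ⟨x, hx, -⟩ := exists_branch p p.nil_mem
    exact ⟨x, hx⟩)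
  intro hc
  exact not_countable_range hf3 (hc.mono hf1)

theorem exists_tree {K : Set C} (hK : CB K) : ∃ q : PerfectTree, body q ⊆ K := by
  obtain ⟨c, h1, h2, h3⟩ := hK.big.embed
  let T : Set (List Bool) := {s | ∃ a, rs (c a) s.length = s}
  have hmem : ∀ a n, rs (c a) n ∈ T := fun a n => ⟨a, by simp⟩
  refine ⟨⟨T, ⟨fun _ => false, rfl⟩, ?_, ?_⟩, ?_⟩
  · rintro s t hst ⟨a, ha⟩
    rw [← ha] at hst
    exact ⟨a, (rs_of_prefix hst).symm⟩
  · rintro s ⟨a, ha⟩
    set n := s.length with hn
    have hU : {a' : C | rs (c a') n = rs (c a) n} ∈ 𝓝 a :=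
      ((cyl_open (c a) n).preimage h1).mem_nhds rfl
    obtain ⟨k, hk⟩ := cyl_basis hU
    let a' : C := Function.update a k (!(a k))
    have ha' : rs (c a') n = rs (c a) n := by
      apply hk
      rw [rs_eq]
      intro m hm
      exact Function.update_of_ne (by omega) _ _
    have hne : c a' ≠ c a := by
      intro h
      have := congrFun (h3 h) k
      simp [a'] at this
    obtain ⟨j, hj1, hj2⟩ : ∃ j, rs (c a') j = rs (c a) j ∧ c a' j ≠ c a j := by
      by_contra hcon
      push Not at hcon
      apply hne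
      have hall : ∀ j, rs (c a') j = rs (c a) j := by
        intro j
        induction j with
        | zero => rfl
        | succ j ih => rw [rs_succ, rs_succ, ih, hcon j ih]
      funext j
      exact hcon j (hall j)
    have hnj : n ≤ j := by
      by_contra hlt
      push Not at hlt
      exact hj2 (rs_eq.1 ha' j hlt)
    have e1 : rs (c a) j ++ [c a j] ∈ T := by rw [← rs_succ]; exact hmem a _
    have e2 : rs (c a) j ++ [c a' j] ∈ T := by rw [← hj1, ← rs_succ]; exact hmem a' _
    refine ⟨rs (c a) j, hmem a j, ?_, ?_, ?_⟩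
    · rw [← ha]
      exact rs_prefix _ hnj
    · cases h : c a j
      · rw [h] at e1; exact e1
      · cases h' : c a' j
        · rw [h'] at e2; exact e2
        · exact absurd (h'.trans h.symm) hj2
    · cases h : c a j
      · cases h' : c a' j
        · exact absurd (h'.trans h.symm) hj2
        · rw [h'] at e2; exact e2
      · rw [h] at e1; exact e1
  · intro y hy
    have hcl : IsClosed (range c) := (isCompact_range h1).isClosed
    have : y ∈ closure (range c) := by
      rw [mem_closure_iff_nhds]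
      intro U hU
      obtain ⟨n, hn⟩ := cyl_basis hU
      obtain ⟨a, ha⟩ := hy n
      rw [rs_length] at ha
      exact ⟨c a, hn _ ha, mem_range_self a⟩
    rw [hcl.closure_eq] at this
    obtain ⟨a, rfl⟩ := this
    exact h2 a

theorem le_of_body {p q : PerfectTree} (h : body q ⊆ body p) : q ≤ p := by
  intro s hs
  obtain ⟨x, hx, hxs⟩ := exists_branch q hs
  rw [← hxs]
  exact h hx _

theorem body_mono {p q : PerfectTree} (h : q ≤ p) : body q ⊆ body p := fun _ hx n => h (hx n)

theorem tree_trans {p q r : PerfectTree} (h : p ≤ q) (h' : q ≤ r) : p ≤ r :=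
  Set.Subset.trans h h'

theorem tree_refl (p : PerfectTree) : p ≤ p := Set.Subset.rfl

/-- restriction of a tree to the nodes comparable with `s` -/
def cone (p : PerfectTree) (s : List Bool) (hs : s ∈ p.T) : PerfectTree where
  T := {t | t ∈ p.T ∧ (t <+: s ∨ s <+: t)}
  nil_mem := ⟨p.nil_mem, Or.inl (List.nil_prefix)⟩
  closed := by
    rintro t' t htt' ⟨ht, h | h⟩
    · exact ⟨p.closed _ _ htt' ht, Or.inl (htt'.trans h)⟩
    · exact ⟨p.closed _ _ htt' ht, List.prefix_or_prefix_of_prefix htt' h⟩
  splits := by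
    rintro t ⟨ht, h | h⟩
    · obtain ⟨u, hu, hsu, h0, h1⟩ := p.splits s hs
      exact ⟨u, ⟨hu, Or.inr hsu⟩, h.trans hsu,
        ⟨h0, Or.inr (hsu.trans (List.prefix_append _ _))⟩,
        ⟨h1, Or.inr (hsu.trans (List.prefix_append _ _))⟩⟩
    · obtain ⟨u, hu, htu, h0, h1⟩ := p.splits t ht
      exact ⟨u, ⟨hu, Or.inr (h.trans htu)⟩, htu,
        ⟨h0, Or.inr ((h.trans htu).trans (List.prefix_append _ _))⟩,
        ⟨h1, Or.inr ((h.trans htu).trans (List.prefix_append _ _))⟩⟩

theorem body_cone (p : PerfectTree) (s : List Bool) (hs : s ∈ p.T) {x : C}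
    (hx : x ∈ body (cone p s hs)) : x ∈ body p ∧ rs x s.length = s := by
  refine ⟨fun n => (hx n).1, ?_⟩
  rcases (hx s.length).2 with h | h
  · exact h.eq_of_length (by simp)
  · exact (h.eq_of_length (by simp)).symm

theorem Forces.mono {p q : PerfectTree} {τ : ℕ → Set PerfectTree} {n : ℕ} (h : Forces p τ n)
    (hqp : q ≤ p) : Forces q τ n := fun r hr => h r (tree_trans hr hqp)

theorem finite_of_not_inf {A : Set ℕ} (h : ¬ Inf A) : A.Finite := by
  by_contra hn
  exact h (inf_iff.2 hn)

theorem sacks_of_hits {𝒜 : Set (Set ℕ)} (h1 : 𝒜.Infinite) (h2 : ∀ A ∈ 𝒜, Inf A)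
    (h3 : ∀ A ∈ 𝒜, ∀ A' ∈ 𝒜, A ≠ A' → ¬ Inf (A ∩ A')) (h4 : Hits 𝒜) :
    SacksIndestructible 𝒜 := by
  refine ⟨⟨h1, fun A hA => inf_iff.1 (h2 A hA),
    fun A hA A' hA' hne => finite_of_not_inf (h3 A hA A' hA' hne), ?_⟩, ?_⟩
  · intro X hX
    obtain ⟨A, hA, hAc⟩ := h4 (fun _ => X) (MS.const X) (fun _ => inf_iff.2 hX)
    refine ⟨A, hA, ?_⟩
    rw [inter_comm]
    apply inf_iff.1
    by_contra hn
    apply hAc
    have : {x : C | Inf (A ∩ X)} = ∅ := by
      rw [eq_empty_iff_forall_notMem]
      exact fun _ h => hn h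
    rw [this]
    exact countable_empty
  · rintro ⟨p, τ, hinf, had⟩
    obtain ⟨A', c, k1, k2, k3, k4, k5⟩ := ST (body p) (body_CB p)
      (fun s K => ∃ (q : PerfectTree) (m : ℕ), K = body q ∧ s.length ≤ m ∧ Forces q τ m) (by
        intro s K hs hK
        obtain ⟨q₀, hq₀⟩ := exists_tree hK
        obtain ⟨q, hq, m, hm, hqm⟩ := hinf s.length q₀ (le_of_body (hq₀.trans hs))
        exact ⟨body q, (body_mono hq).trans hq₀, body_CB q, q, m, rfl, hm, hqm⟩)
    choose q m hAq hlen hforce using fun s => (k1 s).2.2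
    let F : C → Set ℕ := fun x => {k | ∃ n, m (PiNat.res x n) = k}
    have hF : MS F := by
      intro k
      refine Measurable.exists fun n => ?_
      have heq : (fun x : C => m (PiNat.res x n) = k) =
          fun x : C => ∃ u : List Bool, PiNat.res x n = u ∧ m u = k := by
        funext x
        simp
      rw [heq]
      exact Measurable.exists fun u => (meas_res n u).and measurable_const
    have hFi : ∀ x, Inf (F x) := by
      intro x N
      refine ⟨m (PiNat.res x N), ?_, N, rfl⟩
      have := hlen (PiNat.res x N)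
      rwa [PiNat.res_length] at this
    obtain ⟨A, hA, hAc⟩ := h4 F hF hFi
    have hQ : Big {x | Inf (A ∩ F x)} := ⟨((MS.const A).inter hF).inf.setOf, hAc⟩
    obtain ⟨K, hKsub, hK⟩ := hQ.exists_CB
    have hcK : CB (c '' K) := ⟨(hK.1.isCompact.image k3).isClosed, fun h =>
      hK.2 (Set.countable_of_injective_of_countable_image k5.injOn h)⟩
    obtain ⟨r, hr⟩ := exists_tree hcK
    have hcp : ∀ x, c x ∈ body p := fun x => (k1 []).2.1 (k4 x 0)
    have hrp : r ≤ p := by
      apply le_of_body
      intro y hy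
      obtain ⟨x, -, rfl⟩ := hr hy
      exact hcp x
    obtain ⟨r', hr', N, hN⟩ := had A hA r hrp
    obtain ⟨y, hy, -⟩ := exists_branch r' r'.nil_mem
    obtain ⟨x, hxK, rfl⟩ := hr (body_mono hr' hy)
    obtain ⟨k, hk, hkA, n, hkn⟩ := hKsub hxK N
    -- separate
    let U : Set C := {x' | PiNat.res x' n = PiNat.res x n}
    have hUopen : IsOpen U := by
      have : U = PiNat.cylinder x n := by rw [PiNat.cylinder_eq_res]
      rw [this]
      exact PiNat.isOpen_cylinder _ x n
    have hcl : IsClosed (c '' Uᶜ) := (hUopen.isClosed_compl.isCompact.image k3).isClosed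
    have hxn : c x ∉ c '' Uᶜ := by
      rintro ⟨x', hx', h⟩
      rw [k5 h] at hx'
      exact hx' rfl
    obtain ⟨j, hj⟩ := cyl_basis (hcl.isOpen_compl.mem_nhds hxn)
    let r'' := cone r' (rs (c x) j) (hy j)
    have hr''r' : r'' ≤ r' := fun t ht => ht.1
    have hr''q : r'' ≤ q (PiNat.res x n) := by
      apply le_of_body
      intro z hz
      obtain ⟨hz1, hz2⟩ := body_cone _ _ _ hz
      rw [rs_length] at hz2
      obtain ⟨x', -, rfl⟩ := hr (body_mono hr' hz1)
      have hx' : x' ∈ U := by
        by_contra hn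
        exact hj _ hz2 ⟨x', hn, rfl⟩
      rw [← hAq, ← (show PiNat.res x' n = PiNat.res x n from hx')]
      exact k4 x' n
    apply hN k hk hkA r'' hr''r'
    rw [← hkn]
    exact (hforce _).mono hr''q

end Pool.Agent.H635.SK
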