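import Mathlib

/-!
# Cantor schemes of closed sets with uncountable image
-/

namespace Pool.Agent.H635.SK

open Set Function Filter Topology
open scoped ENNReal

/-- closed sets whose image under `g` is uncountable -/
def CU {X Y : Type*} [TopologicalSpace X] (g : X → Y) (K : Set X) : Prop :=
  IsClosed K ∧ ¬ (g '' K).Countable

theorem split_CU {X Y : Type*} [MetricSpace X] [SecondCountableTopology X]
    [TopologicalSpace Y] [T2Space Y] {g : X → Y} (hg : Continuous g) {K : Set X}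
    (hK : CU g K) {ε : ℝ≥0∞} (hε : 0 < ε) :
    ∃ K0 K1 : Set X, (CU g K0 ∧ K0 ⊆ K ∧ Metric.ediam K0 ≤ ε) ∧
      (CU g K1 ∧ K1 ⊆ K ∧ Metric.ediam K1 ≤ ε) ∧ Disjoint (g '' K0) (g '' K1) := by
  classical
  set 𝔅 := TopologicalSpace.countableBasis X with h𝔅
  have hbasis := TopologicalSpace.isBasis_countableBasis X
  set bad : Set Y := ⋃ U ∈ {U ∈ 𝔅 | (g '' (U ∩ K)).Countable}, g '' (U ∩ K) with hbad
  have hbadc : bad.Countable := by
    apply Set.Countable.biUnion
    · exact (TopologicalSpace.countable_countableBasis X).mono (fun U hU => hU.1)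
    · intro U hU
      exact hU.2
  have hunc : ¬ (g '' K \ bad).Countable := by
    intro h
    apply hK.2
    refine (h.union hbadc).mono ?_
    intro y hy
    by_cases hb : y ∈ bad
    · exact Or.inr hb
    · exact Or.inl ⟨hy, hb⟩
  have hnt : (g '' K \ bad).Nontrivial := by
    by_contra h
    rw [Set.not_nontrivial_iff] at h
    exact hunc h.countable
  obtain ⟨y0, ⟨⟨x0, hx0, rfl⟩, hb0⟩, y1, ⟨⟨x1, hx1, rfl⟩, hb1⟩, hne⟩ := hnt
  obtain ⟨V0, V1, hV0, hV1, h0, h1, hdisj⟩ := t2_separation hne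
  have key : ∀ x ∈ K, g x ∉ bad → ∀ V : Set Y, IsOpen V → g x ∈ V →
      ∃ K0 : Set X, (CU g K0 ∧ K0 ⊆ K ∧ Metric.ediam K0 ≤ ε) ∧ g '' K0 ⊆ V := by
    intro x hx hb V hV hxV
    have hnh : g ⁻¹' V ∈ 𝓝 x := (hV.preimage hg).mem_nhds hxV
    obtain ⟨r, hr, hrV⟩ := Metric.nhds_basis_closedEBall.mem_iff.1 hnh
    set r' := min r (ε / 2) with hr'
    have hr'0 : 0 < r' := lt_min hr (ENNReal.half_pos hε.ne')
    refine ⟨K ∩ Metric.closedEBall x r', ⟨⟨hK.1.inter Metric.isClosed_closedEBall, ?_⟩,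
      inter_subset_left, ?_⟩, ?_⟩
    · intro hc
      have hnh' : Metric.closedEBall x r' ∈ 𝓝 x := Metric.closedEBall_mem_nhds x hr'0
      obtain ⟨U, hU, hxU, hUs⟩ := hbasis.mem_nhds_iff.1 hnh'
      apply hb
      rw [hbad]
      refine mem_biUnion (x := U) ⟨hU, ?_⟩ ⟨x, ⟨hxU, hx⟩, rfl⟩
      refine hc.mono (image_mono ?_)
      intro z hz
      exact ⟨hz.2, hUs hz.1⟩
    · refine (Metric.ediam_mono inter_subset_right).trans ?_
      refine Metric.ediam_closedEBall_le.trans ?_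
      calc 2 * r' ≤ 2 * (ε / 2) := by
            gcongr
            exact min_le_right _ _
        _ = ε := by
            rw [mul_comm, ENNReal.div_mul_cancel] <;> norm_num
    · rintro _ ⟨z, hz, rfl⟩
      exact hrV (Metric.closedEBall_subset_closedEBall (min_le_left _ _) hz.2)
  obtain ⟨K0, hK0, hK0V⟩ := key x0 hx0 hb0 V0 hV0 h0
  obtain ⟨K1, hK1, hK1V⟩ := key x1 hx1 hb1 V1 hV1 h1
  exact ⟨K0, K1, hK0, hK1, hdisj.mono hK0V hK1V⟩

/-- The scheme theorem in complete metric spaces. -/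
theorem scheme_metric {X Y : Type*} [MetricSpace X] [CompleteSpace X] [SecondCountableTopology X]
    [TopologicalSpace Y] [T2Space Y] {g : X → Y} (hg : Continuous g) (K₀ : Set X)
    (hK₀ : CU g K₀) (𝒟 : List Bool → Set X → Prop)
    (hD : ∀ s K, K ⊆ K₀ → CU g K → ∃ K', K' ⊆ K ∧ CU g K' ∧ 𝒟 s K') :
    ∃ (A : List Bool → Set X) (c : (ℕ → Bool) → X),
      (∀ s, CU g (A s) ∧ A s ⊆ K₀ ∧ 𝒟 s (A s)) ∧
      (∀ i s, A (i :: s) ⊆ A s) ∧
      (∀ s, Disjoint (g '' A (false :: s)) (g '' A (true :: s))) ∧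
      Continuous c ∧ ∀ a n, c a ∈ A (PiNat.res a n) := by
  classical
  obtain ⟨u, -, upos', hu⟩ := exists_seq_strictAnti_tendsto' (zero_lt_one' ℝ≥0∞)
  have upos := fun n => (upos' n).1
  let P := {E : Set X // CU g E ∧ E ⊆ K₀}
  choose R hRsub hRCU hRD using hD
  choose C0 C1 h0 h1 hdisj using
    fun {K : Set X} (hC : CU g K) {ε : ℝ≥0∞} (hε : 0 < ε) => split_CU hg hC hε
  let ref : List Bool → P → P := fun s E =>
    ⟨R s E.1 E.2.2 E.2.1, hRCU s E.1 E.2.2 E.2.1, (hRsub s E.1 E.2.2 E.2.1).trans E.2.2⟩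
  let chl : Bool → ℕ → P → P := fun i n E =>
    match i with
    | false => ⟨C0 E.2.1 (upos n), (h0 E.2.1 (upos n)).1, (h0 E.2.1 (upos n)).2.1.trans E.2.2⟩
    | true => ⟨C1 E.2.1 (upos n), (h1 E.2.1 (upos n)).1, (h1 E.2.1 (upos n)).2.1.trans E.2.2⟩
  let DP : List Bool → P := fun l =>
    List.rec (ref [] ⟨K₀, hK₀, Subset.rfl⟩) (fun a l ih => ref (a :: l) (chl a (l.length + 1) ih)) l
  have DPnil : DP [] = ref [] ⟨K₀, hK₀, Subset.rfl⟩ := rfl
  have DPcons : ∀ a l, DP (a :: l) = ref (a :: l) (chl a (l.length + 1) (DP l)) := fun a l => rfl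
  let D : List Bool → Set X := fun l => (DP l).val
  have refsub : ∀ s E, (ref s E).1 ⊆ E.1 := fun s E => hRsub s E.1 E.2.2 E.2.1
  have chlsub : ∀ i n E, (chl i n E).1 ⊆ E.1 := by
    intro i n E
    cases i
    · exact (h0 E.2.1 (upos n)).2.1
    · exact (h1 E.2.1 (upos n)).2.1
  have chldiam : ∀ i n E, Metric.ediam (chl i n E).1 ≤ u n := by
    intro i n E
    cases i
    · exact (h0 E.2.1 (upos n)).2.2
    · exact (h1 E.2.1 (upos n)).2.2
  have hDD : ∀ s, 𝒟 s (D s) := by
    intro s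
    cases s with
    | nil => exact hRD _ _ _ _
    | cons a l => exact hRD _ _ _ _
  have hanti' : ∀ i s, D (i :: s) ⊆ D s := by
    intro i s
    change (DP (i :: s)).1 ⊆ (DP s).1
    rw [DPcons]
    exact (refsub _ _).trans (chlsub _ _ _)
  have hanti : CantorScheme.ClosureAntitone D := by
    refine CantorScheme.Antitone.closureAntitone ?_ fun l => (DP l).property.1.1
    intro l a
    exact hanti' a l
  have hdiam : CantorScheme.VanishingDiam D := by
    intro x
    apply tendsto_of_tendsto_of_tendsto_of_le_of_le' tendsto_const_nhds hu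
    · simp
    rw [eventually_atTop]
    refine ⟨1, fun m (hm : 1 ≤ m) => ?_⟩
    rw [Nat.one_le_iff_ne_zero] at hm
    rcases Nat.exists_eq_succ_of_ne_zero hm with ⟨n, rfl⟩
    change Metric.ediam (DP (x n :: PiNat.res x n)).1 ≤ _
    rw [DPcons]
    refine (Metric.ediam_mono (refsub _ _)).trans ?_
    refine (chldiam _ _ _).trans ?_
    rw [PiNat.res_length]
  have hne : ∀ l, (D l).Nonempty := by
    intro l
    by_contra h
    rw [not_nonempty_iff_eq_empty] at h
    apply (DP l).property.1.2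
    change (g '' (D l)).Countable
    rw [h]
    simp
  have hdom : ∀ {x : ℕ → Bool}, x ∈ (CantorScheme.inducedMap D).1 := fun {x} => by
    rw [hanti.map_of_vanishingDiam hdiam hne]
    apply mem_univ
  refine ⟨D, fun x => (CantorScheme.inducedMap D).2 ⟨x, hdom⟩, ?_, hanti', ?_, ?_, ?_⟩
  · intro s
    exact ⟨(DP s).2.1, (DP s).2.2, hDD s⟩
  · intro s
    refine (hdisj (DP s).2.1 (upos (s.length + 1))).mono ?_ ?_
    · apply image_mono
      exact refsub (false :: s) (chl false (s.length + 1) (DP s))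
    · apply image_mono
      exact refsub (true :: s) (chl true (s.length + 1) (DP s))
  · apply hdiam.map_continuous.comp
    fun_prop
  · intro a n
    exact CantorScheme.map_mem ⟨a, hdom⟩ n

/-- The scheme theorem in Polish spaces. -/
theorem scheme {X Y : Type*} [TopologicalSpace X] [PolishSpace X]
    [TopologicalSpace Y] [T2Space Y] {g : X → Y} (hg : Continuous g) (K₀ : Set X)
    (hK₀ : CU g K₀) (𝒟 : List Bool → Set X → Prop)
    (hD : ∀ s K, K ⊆ K₀ → CU g K → ∃ K', K' ⊆ K ∧ CU g K' ∧ 𝒟 s K') :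
    ∃ (A : List Bool → Set X) (c : (ℕ → Bool) → X),
      (∀ s, CU g (A s) ∧ A s ⊆ K₀ ∧ 𝒟 s (A s)) ∧
      (∀ i s, A (i :: s) ⊆ A s) ∧
      Continuous c ∧ (∀ a n, c a ∈ A (PiNat.res a n)) ∧ Injective (fun a => g (c a)) := by
  let := TopologicalSpace.upgradeIsCompletelyMetrizable X
  obtain ⟨A, c, h1, h2, h3, h4, h5⟩ := scheme_metric hg K₀ hK₀ 𝒟 hD
  refine ⟨A, c, h1, h2, h4, h5, ?_⟩
  intro a b hab
  have hab' : g (c a) = g (c b) := hab
  have : ∀ n, PiNat.res a n = PiNat.res b n := by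
    intro n
    induction n with
    | zero => rfl
    | succ n ih =>
      have ha := h5 a (n + 1)
      have hb := h5 b (n + 1)
      rw [PiNat.res_succ] at ha hb ⊢
      rw [PiNat.res_succ]
      rw [ih] at ha ⊢
      by_cases h : a n = b n
      · rw [h]
      · exfalso
        have hd := h3 (PiNat.res b n)
        rw [Set.disjoint_left] at hd
        cases han : a n <;> cases hbn : b n
        · exact h (by rw [han, hbn])
        · rw [han] at ha
          rw [hbn] at hb
          exact hd ⟨_, ha, rfl⟩ ⟨_, hb, hab'.symm⟩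
        · rw [han] at ha
          rw [hbn] at hb
          exact hd ⟨_, hb, rfl⟩ ⟨_, ha, hab'⟩
        · exact h (by rw [han, hbn])
  exact PiNat.res_injective (funext this)

end Pool.Agent.H635.SK
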