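import Pool.Agent.H635.SK.Fib

/-!
# The thinning cardinal and the selection lemma
-/

namespace Pool.Agent.H635.SK

open Set Function Filter Topology Cardinal

/-- `ι` many measurable functions that cannot be thinned simultaneously -/
def Fail (ι : Type) : Prop :=
  ∃ π : ι → C → C, (∀ i, Measurable (π i)) ∧ ∀ R, Big R → ∃ i, ¬ (T (π i) R).Countable

theorem not_fail_countable (ι : Type) [Countable ι] : ¬ Fail ι := by
  rintro ⟨π, hπ, hfail⟩
  by_cases hne : Nonempty ι
  · obtain ⟨e, he⟩ := exists_surjective_nat ι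
    obtain ⟨R, -, hR, hlev⟩ := ST_level univ CB_univ
      (fun n K => (∃ y, ∀ x ∈ K, π (e n) x = y) ∨ InjOn (π (e n)) K)
      (fun n K _ hK => const_or_inj hK.big (hπ (e n)))
    obtain ⟨i, hi⟩ := hfail R hR.big
    obtain ⟨n, rfl⟩ := he i
    apply hi
    obtain ⟨F, hF, hRF, hFD⟩ := hlev n
    classical
    -- values
    let val : Set C → C := fun K => if h : ∃ y, ∀ x ∈ K, π (e n) x = y then h.choose else fun _ => false
    refine (hF.countable.image val).mono ?_
    intro y hy
    have hy' : ¬ (R ∩ π (e n) ⁻¹' {y}).Countable := hy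
    have : ∃ K ∈ F, ¬ (K ∩ π (e n) ⁻¹' {y}).Countable := by
      by_contra hn
      push Not at hn
      apply hy'
      refine (hF.countable.biUnion hn).mono ?_
      intro x hx
      obtain ⟨K, hK, hxK⟩ := mem_sUnion.1 (hRF hx.1)
      exact mem_biUnion hK ⟨hxK, hx.2⟩
    obtain ⟨K, hK, hKy⟩ := this
    refine ⟨K, hK, ?_⟩
    have hnt : (K ∩ π (e n) ⁻¹' {y}).Nontrivial := by
      by_contra h
      rw [Set.not_nontrivial_iff] at h
      exact hKy h.countable
    obtain ⟨x, hx, x', hx', hne'⟩ := hnt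
    rcases hFD K hK with h | h
    · have : val K = h.choose := dif_pos h
      rw [this, ← h.choose_spec x hx.1]
      exact hx.2
    · exact absurd (h hx.1 hx'.1 (by rw [show π (e n) x = y from hx.2, show π (e n) x' = y from hx'.2]))
        hne'
  · obtain ⟨i, -⟩ := hfail univ CB_univ.big
    exact hne ⟨i⟩

theorem fail_all : Fail {f : C → C // Measurable f} := by
  refine ⟨fun f => f.1, fun f => f.2, ?_⟩
  intro R hR
  obtain ⟨c, h1, h2, h3⟩ := hR.embed
  -- the map `c (il u v) ↦ u`
  obtain ⟨L, hL, hL'⟩ := exists_leftInv h1.measurable MeasurableSet.univ (h3.injOn)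
  have hm : Measurable (fun x : C => (fun n => L x (2 * n) : C)) := by
    apply measurable_pi_lambda
    intro n
    exact (measurable_pi_apply (2 * n)).comp hL
  refine ⟨⟨_, hm⟩, ?_⟩
  intro hc
  apply not_countable_C
  have : (univ : Set C) ⊆ T (fun x : C => (fun n => L x (2 * n) : C)) R := by
    intro u _
    have hsub : range (fun v => c (il u v)) ⊆ R ∩ (fun x : C => (fun n => L x (2 * n) : C)) ⁻¹' {u} := by
      rintro _ ⟨v, rfl⟩
      refine ⟨h2 _, ?_⟩
      change (fun n => L (c (il u v)) (2 * n)) = u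
      rw [hL' (il u v) (mem_univ _)]
      funext n
      exact il_even u v n
    intro hcount
    refine not_countable_range ?_ (hcount.mono hsub)
    intro v v' hvv'
    exact (il_inj (h3 hvv')).2
  exact Set.countable_univ_iff.1 (hc.mono this)

theorem mk_meas : #{f : C → C // Measurable f} ≤ 𝔠 := by
  have hcg := MeasurableSpace.countable_countableGeneratingSet (α := C)
  have h1 : #{t : Set C // MeasurableSet t} ≤ 𝔠 := by
    have h := @MeasurableSpace.cardinal_measurableSet_le_continuum C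
      (MeasurableSpace.countableGeneratingSet C)
      ((Cardinal.le_aleph0_iff_set_countable.2 hcg).trans Cardinal.aleph0_le_continuum)
    rw [MeasurableSpace.generateFrom_countableGeneratingSet] at h
    exact h
  have h2 : Injective (fun f : {f : C → C // Measurable f} =>
      (fun n : ℕ => (⟨f.1 ⁻¹' ((fun x : C => x n) ⁻¹' {true}),
        f.2 ((measurable_pi_apply n) (measurableSet_singleton true))⟩ : {t : Set C // MeasurableSet t}))) := by
    intro f g hfg
    apply Subtype.ext
    funext x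
    funext n
    have := congrFun hfg n
    have h3 : f.1 ⁻¹' ((fun x : C => x n) ⁻¹' {true}) = g.1 ⁻¹' ((fun x : C => x n) ⁻¹' {true}) :=
      congrArg Subtype.val this
    have h4 : f.1 x n = true ↔ g.1 x n = true := by
      have := Set.ext_iff.1 h3 x
      simpa using this
    exact Bool.eq_iff_iff.2 h4
  refine (Cardinal.mk_le_of_injective h2).trans ?_
  rw [← Cardinal.power_def, Cardinal.mk_nat]
  calc #{t : Set C // MeasurableSet t} ^ ℵ₀ ≤ 𝔠 ^ ℵ₀ := Cardinal.power_le_power_right h1
    _ = 𝔠 := Cardinal.continuum_power_aleph0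

theorem exists_kappa : ∃ κ : Cardinal.{0}, ℵ₀ < κ ∧ κ ≤ 𝔠 ∧ Fail κ.ord.ToType ∧
    ∀ ι : Type, #ι < κ → ¬ Fail ι := by
  classical
  let S : Set Cardinal.{0} := {κ | ∃ ι : Type, #ι = κ ∧ Fail ι}
  have hS : S.Nonempty := ⟨_, _, rfl, fail_all⟩
  have hm := csInf_mem hS
  obtain ⟨ι, hι, hf⟩ := hm
  have hmin : ∀ ι : Type, #ι < sInf S → ¬ Fail ι := by
    intro ι' h hf'
    exact absurd (csInf_le' (s := S) ⟨ι', rfl, hf'⟩) (not_le.2 h)
  refine ⟨sInf S, ?_, ?_, ?_, hmin⟩
  · by_contra hle
    push Not at hle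
    rw [← hι] at hle
    have : Countable ι := Cardinal.mk_le_aleph0_iff.1 hle
    exact not_fail_countable ι hf
  · exact (csInf_le' (s := S) ⟨_, rfl, fail_all⟩).trans mk_meas
  · have he : #ι = #(sInf S).ord.ToType := by rw [hι, Cardinal.mk_ord_toType]
    obtain ⟨e⟩ := Cardinal.eq.1 he
    obtain ⟨π, h1, h2⟩ := hf
    refine ⟨fun i => π (e.symm i), fun i => h1 _, ?_⟩
    intro R hR
    obtain ⟨i, hi⟩ := h2 R hR
    exact ⟨e i, by simpa using hi⟩

/-- thinning below any big set -/
theorem thin_below {ι : Type} (h : ¬ Fail ι) (π : ι → C → C) (hπ : ∀ i, Measurable (π i))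
    {P : Set C} (hP : Big P) : ∃ R, R ⊆ P ∧ Big R ∧ ∀ i, (T (π i) R).Countable := by
  obtain ⟨c, h1, h2, h3⟩ := hP.embed
  unfold Fail at h
  push Not at h
  obtain ⟨R, hR, hT⟩ := h (fun i x => π i (c x)) (fun i => (hπ i).comp h1.measurable)
  refine ⟨c '' R, ?_, hR.image h1.measurable h3.injOn, ?_⟩
  · rintro _ ⟨a, -, rfl⟩
    exact h2 a
  · intro i
    refine (hT i).mono ?_
    intro y hy hc
    apply hy
    refine (hc.image c).mono ?_
    rintro _ ⟨⟨a, ha, rfl⟩, hay⟩
    exact ⟨a, ⟨ha, hay⟩, rfl⟩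

end Pool.Agent.H635.SK
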